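import Pool.Agent.Y979.HM.Net

/-!
# Elementary properties of the energy and of the infimum of the energy
-/

set_option autoImplicit false

open MeasureTheory
open scoped ENNReal

namespace Pool.Agent.Y979.HM

noncomputable section

variable {V : Type*} {G : SimpleGraph V}

theorem En_congr_sq {f g : V → ℝ} (h : ∀ x y, G.Adj x y → (f x - f y) ^ 2 = (g x - g y) ^ 2) :
    En G f = En G g := by
  unfold En
  refine tsum_congr fun p => ?_
  split_ifs with hp
  · rw [h _ _ hp]
  · rfl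

theorem En_mono_sq {f g : V → ℝ} (h : ∀ x y, G.Adj x y → (f x - f y) ^ 2 ≤ (g x - g y) ^ 2) :
    En G f ≤ En G g := by
  unfold En
  refine ENNReal.tsum_le_tsum fun p => ?_
  split_ifs with hp
  · exact ENNReal.ofReal_le_ofReal (h _ _ hp)
  · exact le_rfl

theorem En_neg (f : V → ℝ) : En G (-f) = En G f :=
  En_congr_sq fun x y _ => by simp only [Pi.neg_apply]; ring

theorem En_smul (c : ℝ) (f : V → ℝ) : En G (c • f) = ENNReal.ofReal (c ^ 2) * En G f := by
  unfold En
  rw [← ENNReal.tsum_mul_left]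
  refine tsum_congr fun p => ?_
  split_ifs with hp
  · rw [← ENNReal.ofReal_mul (sq_nonneg c)]
    congr 1
    simp only [Pi.smul_apply, smul_eq_mul]
    ring
  · rw [mul_zero]

theorem En_parallelogram (f g : V → ℝ) :
    En G (f + g) + En G (f - g) = 2 * En G f + 2 * En G g := by
  unfold En
  rw [← ENNReal.tsum_add, ← ENNReal.tsum_mul_left, ← ENNReal.tsum_mul_left, ← ENNReal.tsum_add]
  refine tsum_congr fun p => ?_
  split_ifs with hp
  · rw [← ENNReal.ofReal_add (sq_nonneg _) (sq_nonneg _),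
      show (2 : ℝ≥0∞) = ENNReal.ofReal 2 by simp,
      ← ENNReal.ofReal_mul zero_le_two, ← ENNReal.ofReal_mul zero_le_two,
      ← ENNReal.ofReal_add (by positivity) (by positivity)]
    congr 1
    simp only [Pi.add_apply, Pi.sub_apply]
    ring
  · simp

theorem En_add_lt {f g : V → ℝ} (hf : En G f < ⊤) (hg : En G g < ⊤) : En G (f + g) < ⊤ := by
  refine lt_of_le_of_lt (le_self_add) (lt_of_eq_of_lt (En_parallelogram (G := G) f g) ?_)
  exact ENNReal.add_lt_top.mpr ⟨ENNReal.mul_lt_top (by simp) hf, ENNReal.mul_lt_top (by simp) hg⟩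

theorem En_sub_lt {f g : V → ℝ} (hf : En G f < ⊤) (hg : En G g < ⊤) : En G (f - g) < ⊤ := by
  rw [sub_eq_add_neg]
  exact En_add_lt hf (by rwa [En_neg])

theorem Qn_le_En (f : V → ℝ) : Qn G f ≤ En G f := by
  unfold Qn
  refine (iInf_le _ (0 : V →₀ ℝ)).trans (le_of_eq ?_)
  congr 1
  ext v
  simp

theorem Qn_le_of_finite {f w : V → ℝ} (h : {v | w v ≠ f v}.Finite) : Qn G f ≤ En G w := by
  classical
  unfold Qn
  refine (iInf_le _ (Finsupp.onFinset h.toFinset (fun v => w v - f v) fun v hv => by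
    rw [Set.Finite.mem_toFinset]
    show w v ≠ f v
    intro h'
    exact hv (by rw [h', sub_self]))).trans (le_of_eq ?_)
  congr 1
  ext v
  simp

theorem le_Qn {f : V → ℝ} {a : ℝ≥0∞} (h : ∀ w : V → ℝ, {v | w v ≠ f v}.Finite → a ≤ En G w) :
    a ≤ Qn G f := by
  unfold Qn
  refine le_iInf fun φ => h _ ?_
  refine (φ.support.finite_toSet).subset fun v hv => ?_
  rw [Finset.mem_coe, Finsupp.mem_support_iff]
  intro h0
  apply hv
  simp [h0]

theorem Qn_parallelogram_le (f g : V → ℝ) :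
    Qn G (f + g) + Qn G (f - g) ≤ 2 * Qn G f + 2 * Qn G g := by
  rw [Qn, Qn, Qn, Qn]
  rw [ENNReal.mul_iInf_of_ne (by simp) (by simp), ENNReal.mul_iInf_of_ne (by simp) (by simp)]
  refine ENNReal.le_iInf_add_iInf fun φ ψ => ?_
  rw [← En_parallelogram]
  refine add_le_add ((iInf_le _ (φ + ψ)).trans (le_of_eq ?_)) ((iInf_le _ (φ - ψ)).trans
    (le_of_eq ?_))
  · congr 1
    ext v
    simp
    ring
  · congr 1
    ext v
    simp
    ring

theorem Qn_smul {c : ℝ} (hc : c ≠ 0) (f : V → ℝ) :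
    Qn G (c • f) = ENNReal.ofReal (c ^ 2) * Qn G f := by
  have key : ∀ (c : ℝ), c ≠ 0 → ∀ f : V → ℝ,
      ENNReal.ofReal (c ^ 2) * Qn G f ≤ Qn G (c • f) := by
    intro c hc f
    refine le_Qn fun w hw => ?_
    have h1 : Qn G f ≤ En G (c⁻¹ • w) := by
      refine Qn_le_of_finite (hw.subset fun v hv => ?_)
      intro h2
      apply hv
      simp only [Pi.smul_apply, smul_eq_mul] at h2 ⊢
      rw [h2]
      field_simp
    calc ENNReal.ofReal (c ^ 2) * Qn G f ≤ ENNReal.ofReal (c ^ 2) * En G (c⁻¹ • w) := by gcongr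
      _ = En G w := by
        rw [En_smul, ← mul_assoc, ← ENNReal.ofReal_mul (sq_nonneg c)]
        rw [show c ^ 2 * c⁻¹ ^ 2 = 1 by field_simp]
        simp
  refine le_antisymm ?_ (key c hc f)
  have h := key c⁻¹ (inv_ne_zero hc) (c • f)
  rw [smul_smul, inv_mul_cancel₀ hc, one_smul] at h
  calc Qn G (c • f) = ENNReal.ofReal (c ^ 2) * (ENNReal.ofReal (c⁻¹ ^ 2) * Qn G (c • f)) := by
        rw [← mul_assoc, ← ENNReal.ofReal_mul (sq_nonneg c),
          show c ^ 2 * c⁻¹ ^ 2 = 1 by field_simp]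
        simp
    _ ≤ ENNReal.ofReal (c ^ 2) * Qn G f := by gcongr

theorem Qn_neg (f : V → ℝ) : Qn G (-f) = Qn G f := by
  have h := Qn_smul (G := G) (c := -1) (by norm_num) f
  rw [neg_smul, one_smul] at h
  rw [h]
  simp

theorem Qn_parallelogram (f g : V → ℝ) :
    Qn G (f + g) + Qn G (f - g) = 2 * Qn G f + 2 * Qn G g := by
  refine le_antisymm (Qn_parallelogram_le f g) ?_
  have h := Qn_parallelogram_le (G := G) (f + g) (f - g)
  have e1 : (f + g) + (f - g) = (2 : ℝ) • f := by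
    ext v; simp only [Pi.add_apply, Pi.sub_apply, Pi.smul_apply, smul_eq_mul]; ring
  have e2 : (f + g) - (f - g) = (2 : ℝ) • g := by
    ext v; simp only [Pi.add_apply, Pi.sub_apply, Pi.smul_apply, smul_eq_mul]; ring
  rw [e1, e2, Qn_smul two_ne_zero, Qn_smul two_ne_zero] at h
  have h4 : ENNReal.ofReal ((2 : ℝ) ^ 2) = 2 * 2 := by
    rw [show ((2 : ℝ) ^ 2) = 2 * 2 by norm_num, ENNReal.ofReal_mul zero_le_two]
    simp
  rw [h4, ← mul_add, mul_assoc, ← mul_add] at h
  have := (ENNReal.mul_le_mul_iff_right (a := 2) (by simp) (by simp)).mp h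
  rwa [mul_add] at this

theorem Qn_lt {f : V → ℝ} (hf : En G f < ⊤) : Qn G f < ⊤ := (Qn_le_En f).trans_lt hf

theorem toReal_parallelogram {f g : V → ℝ} (hf : En G f < ⊤) (hg : En G g < ⊤) :
    (Qn G (f + g)).toReal + (Qn G (f - g)).toReal =
      2 * (Qn G f).toReal + 2 * (Qn G g).toReal := by
  have h := congrArg ENNReal.toReal (Qn_parallelogram (G := G) f g)
  rw [ENNReal.toReal_add (Qn_lt (En_add_lt hf hg)).ne (Qn_lt (En_sub_lt hf hg)).ne,
    ENNReal.toReal_add (ENNReal.mul_ne_top (by simp) (Qn_lt hf).ne)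
      (ENNReal.mul_ne_top (by simp) (Qn_lt hg).ne), ENNReal.toReal_mul, ENNReal.toReal_mul] at h
  simpa using h

/-- `bn` is additive in the first variable -/
theorem bn_add_left {f g h : V → ℝ} (hf : En G f < ⊤) (hg : En G g < ⊤) (hh : En G h < ⊤) :
    bn G (f + g) h = bn G f h + bn G g h := by
  have p1 := toReal_parallelogram (En_add_lt hf hh) hg
  have p2 := toReal_parallelogram (En_sub_lt hf hh) hg
  have p3 := toReal_parallelogram (En_add_lt hg hh) hf
  have p4 := toReal_parallelogram (En_sub_lt hg hh) hf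
  have a1 : f + h + g = f + g + h := by ring
  have a2 : f - h + g = f + g - h := by ring
  have a3 : g + h + f = f + g + h := by ring
  have a4 : g - h + f = f + g - h := by ring
  have a5 : f + h - g = -(g - h - f) := by ring
  have a6 : f - h - g = -(g + h - f) := by ring
  rw [a1, a5, Qn_neg] at p1
  rw [a2, a6, Qn_neg] at p2
  rw [a3] at p3
  rw [a4] at p4
  unfold bn
  linarith

/-- `bn` is symmetric -/
theorem bn_comm (f g : V → ℝ) : bn G f g = bn G g f := by
  unfold bn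
  rw [show f - g = -(g - f) by ring, Qn_neg, add_comm f g]

theorem bn_add_right {f g h : V → ℝ} (hf : En G f < ⊤) (hg : En G g < ⊤) (hh : En G h < ⊤) :
    bn G f (g + h) = bn G f g + bn G f h := by
  rw [bn_comm, bn_add_left hg hh hf, bn_comm, bn_comm h f]

/-- `bn` is nonnegative on pairs of nonnegative functions with disjoint supports -/
theorem bn_nonneg {f g : V → ℝ} (hf0 : ∀ v, 0 ≤ f v) (hg0 : ∀ v, 0 ≤ g v)
    (hfg : ∀ v, f v * g v = 0) (hf : En G f < ⊤) (hg : En G g < ⊤) : 0 ≤ bn G f g := by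
  have key : Qn G (f + g) ≤ Qn G (f - g) := by
    refine le_Qn fun w hw => ?_
    refine (Qn_le_of_finite (w := fun v => |w v|) (hw.subset fun v hv => ?_)).trans ?_
    · intro h
      apply hv
      rw [h]
      simp only [Pi.sub_apply, Pi.add_apply]
      rcases mul_eq_zero.mp (hfg v) with h0 | h0
      · rw [h0, zero_sub, abs_neg, abs_of_nonneg (hg0 v), zero_add]
      · rw [h0, sub_zero, abs_of_nonneg (hf0 v), add_zero]
    · refine En_mono_sq fun x y _ => ?_
      rw [← sq_abs, ← sq_abs (w x - w y)]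
      exact pow_le_pow_left₀ (abs_nonneg _) (abs_abs_sub_abs_le_abs_sub _ _) 2
  unfold bn
  have := ENNReal.toReal_mono (Qn_lt (En_sub_lt hf hg)).ne key
  linarith

theorem bn_mono_left {f f' g : V → ℝ} (hff : ∀ v, f v ≤ f' v) (hg0 : ∀ v, 0 ≤ g v)
    (hfg : ∀ v, (f' v - f v) * g v = 0) (hf : En G f < ⊤) (hf' : En G f' < ⊤) (hg : En G g < ⊤) :
    bn G f g ≤ bn G f' g := by
  have h1 := bn_add_left (G := G) hf (En_sub_lt hf' hf) hg
  have h2 : 0 ≤ bn G (f' - f) g :=
    bn_nonneg (fun v => sub_nonneg.mpr (hff v)) hg0 hfg (En_sub_lt hf' hf) hg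
  rw [show f + (f' - f) = f' by ring] at h1
  linarith

theorem bn_mono_right {f g g' : V → ℝ} (hgg : ∀ v, g v ≤ g' v) (hf0 : ∀ v, 0 ≤ f v)
    (hfg : ∀ v, (g' v - g v) * f v = 0) (hf : En G f < ⊤) (hg : En G g < ⊤) (hg' : En G g' < ⊤) :
    bn G f g ≤ bn G f g' := by
  rw [bn_comm f g, bn_comm f g']
  exact bn_mono_left hgg hf0 hfg hg hg' hf

theorem four_bn_le (f g : V → ℝ) : 4 * bn G f g ≤ (Qn G (f - g)).toReal := by
  unfold bn
  have : 0 ≤ (Qn G (f + g)).toReal := ENNReal.toReal_nonneg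
  linarith

theorem ofReal_four_bn_le (f g : V → ℝ) : ENNReal.ofReal (4 * bn G f g) ≤ En G (f - g) := by
  rcases eq_or_ne (En G (f - g)) ⊤ with h | h
  · rw [h]; exact le_top
  · refine (ENNReal.ofReal_le_ofReal (four_bn_le f g)).trans ?_
    rw [ENNReal.ofReal_toReal (Qn_lt (lt_top_iff_ne_top.mpr h)).ne]
    exact Qn_le_En _

/-! ## Transport -/

variable {V' : Type*} {G' : SimpleGraph V'}

theorem En_iso (e : V ≃ V') (he : ∀ x y, G.Adj x y ↔ G'.Adj (e x) (e y)) (f : V' → ℝ) :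
    En G' f = En G (f ∘ e) := by
  unfold En
  rw [← (e.prodCongr e).tsum_eq]
  refine tsum_congr fun p => ?_
  have e1 : ((e.prodCongr e) p).1 = e p.1 := rfl
  have e2 : ((e.prodCongr e) p).2 = e p.2 := rfl
  rw [e1, e2]
  by_cases h : G.Adj p.1 p.2
  · rw [if_pos h, if_pos ((he _ _).mp h)]
    rfl
  · rw [if_neg h, if_neg fun h' => h ((he _ _).mpr h')]

theorem Qn_iso (e : V ≃ V') (he : ∀ x y, G.Adj x y ↔ G'.Adj (e x) (e y)) (f : V' → ℝ) :
    Qn G' f = Qn G (f ∘ e) := by
  refine le_antisymm (le_Qn fun w hw => ?_) (le_Qn fun w hw => ?_)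
  · refine (Qn_le_of_finite (w := w ∘ e.symm) ?_).trans ?_
    · refine (hw.image e).subset fun v hv => ⟨e.symm v, ?_, by simp⟩
      intro h
      apply hv
      simpa using h
    · rw [En_iso e he]
      refine le_of_eq ?_
      congr 1
      ext v
      simp
  · rw [En_iso e he]
    refine Qn_le_of_finite ?_
    refine (hw.image e.symm).subset fun v hv => ⟨e v, ?_, by simp⟩
    exact hv

theorem bn_iso (e : V ≃ V') (he : ∀ x y, G.Adj x y ↔ G'.Adj (e x) (e y)) (f g : V' → ℝ) :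
    bn G' f g = bn G (f ∘ e) (g ∘ e) := by
  unfold bn
  rw [Qn_iso e he, Qn_iso e he]
  rfl

end

end Pool.Agent.Y979.HM
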