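import Pool.Agent.Y979.HM.Stm

/-!
# Project HM: transfer to the circle
-/

set_option autoImplicit false

open MeasureTheory UpperHalfPlane Filter Pool.Agent.Y979.HV
open scoped ENNReal Topology

namespace Pool.Agent.Y979.HM

/-- transfer from the real line to the circle -/
def S_CIRC : Prop := ∀ A : Set ℍ, A.Countable → ∀ {Ω' : Type} [MeasurableSpace Ω']
  (P' : Measure Ω') [IsProbabilityMeasure P'] (X : ℕ → Ω' → A),
  (∀ (n : ℕ) (v : A), MeasurableSet {ω | X n ω = v}) →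
  (∃ N : Set ℝ, volume N = 0 ∧
    P' {ω | ∃ ξ : ℝ, ξ ∉ N ∧ Tendsto (fun n => ((X n ω : ℍ) : ℂ)) atTop (𝓝 (ξ : ℂ))} = 0) →
  ∃ ν : Measure ℂ, (∀ S : Set ℂ, MeasurableSet S → ν S =
      P' {ω | ∃ ξ ∈ S, ‖ξ‖ = 1 ∧ Tendsto (fun n => cay (X n ω)) atTop (𝓝 ξ)}) ∧
    ν ⟂ₘ (volume.restrict (Set.Ioc 0 (2 * Real.pi))).map
      (fun θ : ℝ => Complex.exp (θ * Complex.I))

end Pool.Agent.Y979.HM
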