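import Pool.Agent.Y979.HM.Zero

/-!
# Almost every geodesic
-/

set_option autoImplicit false

open MeasureTheory UpperHalfPlane Filter Pool.Agent.Y979.HV
open scoped ENNReal Topology

namespace Pool.Agent.Y979.HM

universe u

noncomputable section

theorem measurable_gen_joint {α : Type*} [MeasurableSpace α] {s t : α → ℝ} (hs : Measurable s)
    (ht : Measurable t) (r : ℝ) : Measurable (fun p : α × ℍ => gen (s p.1) (t p.1) r p.2) := by
  unfold gen
  have hc : Measurable (fun p : α × ℍ => ((p.2 : ℍ) : ℂ)) :=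
    UpperHalfPlane.continuous_coe.measurable.comp measurable_snd
  have h1 : Measurable (fun p : α × ℍ => ‖((p.2 : ℍ) : ℂ) - (s p.1 : ℂ)‖) :=
    (hc.sub (Complex.measurable_ofReal.comp (hs.comp measurable_fst))).norm
  have h2 : Measurable (fun p : α × ℍ => ‖((p.2 : ℍ) : ℂ) - (t p.1 : ℂ)‖) :=
    (hc.sub (Complex.measurable_ofReal.comp (ht.comp measurable_fst))).norm
  exact measurable_const.max (measurable_const.sub (h1.div (measurable_const.mul h2)))

theorem fub (hmob : S_MOB) (hmen : S_MEN.{0}) (hmqn : S_MQN.{u}) (hce : S_CE.{u})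
    (hzero : S_ZERO.{u}) : S_FUB.{u} := by
  intro Ω _ P _ lam Q hQ hlam
  have hg := hce P lam Q hQ hlam
  -- the measurable set of bad triples
  set Bad' : Set (Ω × (ℝ × ℝ)) := {x | x.2.1 < x.2.2 ∧
    ¬ ∀ m : ℕ, EvP (1 / (m + 1)) x.2.1 x.2.2 (pts (TG (mk (Q x.1))))} with hBad
  have hmeas1 : ∀ (m : ℕ) (r R : ℚ), MeasurableSet {x : Ω × (ℝ × ℝ) | ((R : ℝ) / r) *
      bn (voronoiGraph (pts (TG (mk (Q x.1))))) (fun y => gen x.2.1 x.2.2 r y)
        (fun y => gen x.2.2 x.2.1 (1 / R) y) < (1 / ((m : ℝ) + 1))} := by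
    intro m r R
    have h := measurable_bn hmen hmqn (α := Ω × (ℝ × ℝ)) (T := fun x => mk (Q x.1))
      ((measurable_mk hQ).comp measurable_fst)
      (F := fun x z => gen x.2.1 x.2.2 r z) (H := fun x z => gen x.2.2 x.2.1 (1 / R) z)
      (measurable_gen_joint (measurable_fst.comp measurable_snd)
        (measurable_snd.comp measurable_snd) _)
      (measurable_gen_joint (measurable_snd.comp measurable_snd)
        (measurable_fst.comp measurable_snd) _)
    exact measurableSet_lt (h.const_mul _) measurable_const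
  have hmeas2 : MeasurableSet {x : Ω × (ℝ × ℝ) | ∀ m : ℕ,
      EvP (1 / (m + 1)) x.2.1 x.2.2 (pts (TG (mk (Q x.1))))} := by
    have e : {x : Ω × (ℝ × ℝ) | ∀ m : ℕ,
      EvP (1 / (m + 1)) x.2.1 x.2.2 (pts (TG (mk (Q x.1))))} = ⋂ (m : ℕ) (n : ℕ),
        ⋃ (r : ℚ) (R : ℚ) (_ : 0 < r ∧ (r : ℝ) < 1 / (n + 1) ∧ (n : ℝ) + 1 < R),
        {x : Ω × (ℝ × ℝ) | ((R : ℝ) / r) *
      bn (voronoiGraph (pts (TG (mk (Q x.1))))) (fun y => gen x.2.1 x.2.2 r y)
        (fun y => gen x.2.2 x.2.1 (1 / R) y) < (1 / ((m : ℝ) + 1))} := by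
      ext x
      simp only [Set.mem_iInter]
      constructor
      · intro h m n
        obtain ⟨r, R, a1, a2, a3, a4⟩ := h m n
        rw [Set.mem_iUnion]
        refine ⟨r, ?_⟩
        rw [Set.mem_iUnion]
        refine ⟨R, ?_⟩
        rw [Set.mem_iUnion]
        exact ⟨⟨a1, a2, a3⟩, a4⟩
      · intro h m n
        have := h m n
        rw [Set.mem_iUnion] at this
        obtain ⟨r, this⟩ := this
        rw [Set.mem_iUnion] at this
        obtain ⟨R, this⟩ := this
        rw [Set.mem_iUnion] at this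
        obtain ⟨⟨a1, a2, a3⟩, a4⟩ := this
        exact ⟨r, R, a1, a2, a3, a4⟩
    rw [e]
    exact MeasurableSet.iInter fun m => MeasurableSet.iInter fun n => MeasurableSet.iUnion
      fun r => MeasurableSet.iUnion fun R => MeasurableSet.iUnion fun _ => hmeas1 m r R
  have hmeas3 : MeasurableSet {x : Ω × (ℝ × ℝ) | x.2.1 < x.2.2 →
      ∀ m : ℕ, EvP (1 / (m + 1)) x.2.1 x.2.2 (pts (TG (mk (Q x.1))))} := by
    have h1 : MeasurableSet {x : Ω × (ℝ × ℝ) | x.2.1 < x.2.2} :=
      measurableSet_lt (measurable_fst.comp measurable_snd) (measurable_snd.comp measurable_snd)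
    exact h1.imp hmeas2
  have hpt : ∀ p : ℝ × ℝ, ∀ᵐ ω ∂P, p.1 < p.2 →
      ∀ m : ℕ, EvP (1 / (m + 1)) p.1 p.2 (pts (TG (mk (Q ω)))) := by
    intro p
    by_cases hp : p.1 < p.2
    · obtain ⟨e, he1, he2, he3⟩ := mem_Ev_mob hmob hp
      have hQe := isPoisson_image hQ e he2
      have h1 : ∀ m : ℕ, ∀ᵐ ω ∂P, mk (e '' Q ω) ∈ Ev (1 / (m + 1)) := fun m =>
        hzero P lam _ hQe hlam _ (by positivity)
      filter_upwards [hg, ae_all_iff.mpr h1] with ω h2 h3 _ m
      rw [TG_of_good (A := mk (Q ω)) h2]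
      exact (he3 _ _).1 (h3 m)
    · exact Filter.Eventually.of_forall fun ω h => absurd h hp
  have hfub := (Measure.ae_ae_comm (μ := P) (ν := (volume : Measure (ℝ × ℝ)))
    (p := fun ω p => p.1 < p.2 →
      ∀ m : ℕ, EvP (1 / (m + 1)) p.1 p.2 (pts (TG (mk (Q ω))))) hmeas3).2
    (Filter.Eventually.of_forall hpt)
  filter_upwards [hg, hfub] with ω h1 h2
  filter_upwards [h2] with p h3 h4 m
  have := h3 h4 m
  rw [TG_of_good (A := mk (Q ω)) h1] at this
  exact this

end

end Pool.Agent.Y979.HM
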