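import Pool.Agent.Y979.HM.Sum
import Pool.Agent.Y979.HM.Fub
import Pool.Agent.Y979.HM.Stm2

/-!
# Assembly
-/

set_option autoImplicit false

open MeasureTheory UpperHalfPlane Filter Pool.Agent.Y979.HV
open scoped ENNReal Topology

namespace Pool.Agent.Y979.HM

universe u

noncomputable section

/-- `ν` is the harmonic measure at infinity of the walk `X`: the distribution of the limit of the
walk in the closed unit disc, on the unit circle. -/
def IsHarmonicMeasure {Ω' : Type} [MeasurableSpace Ω'] (P' : Measure Ω') {A : Set ℍ}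
    (X : ℕ → Ω' → A) (ν : Measure ℂ) : Prop :=
  ∀ S : Set ℂ, MeasurableSet S → ν S =
    P' {ω | ∃ ξ ∈ S, ‖ξ‖ = 1 ∧ Tendsto (fun n => cay (X n ω)) atTop (𝓝 ξ)}

/-- arc length on the unit circle -/
def arcLength : Measure ℂ :=
  (volume.restrict (Set.Ioc 0 (2 * Real.pi))).map (fun θ : ℝ => Complex.exp (θ * Complex.I))

theorem locFin_countable {A : Set ℍ} (hA : LocFin A) : A.Countable := by
  have h : A = ⋃ n : ℕ, A ∩ Metric.closedBall I n := by
    ext z
    rw [Set.mem_iUnion]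
    constructor
    · intro hz
      obtain ⟨n, hn⟩ := exists_nat_ge (dist z I)
      exact ⟨n, hz, hn⟩
    · rintro ⟨n, hz, _⟩
      exact hz
  rw [h]
  exact Set.countable_iUnion fun n => (hA I n).countable

theorem main (hmob : S_MOB) (hmen : S_MEN.{0}) (hmqn0 : S_MQN.{0}) (hmqn : S_MQN.{u})
    (hlip : S_LIP) (hlaw : S_LAW.{u}) (hzo : S_ZO.{u}) (hce : S_CE.{u}) (hlow : S_LOW.{u})
    (hdiff : S_DIFF) (hcirc : S_CIRC)
    {Ω : Type u} [MeasurableSpace Ω] (P : Measure Ω) [IsProbabilityMeasure P]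
    (lam : ℝ) (hlam : 0 < lam) (Q : Ω → Set ℍ) (hQ : IsPoissonProcess P lam Q) :
    ∀ᵐ ω ∂P, LF (voronoiGraph (Q ω)) ∧
      ∀ (x : Q ω) {Ω' : Type} [MeasurableSpace Ω'] (P' : Measure Ω') [IsProbabilityMeasure P']
        (X : ℕ → Ω' → Q ω), IsSRW P' (voronoiGraph (Q ω)) x X →
        ∃ ν : Measure ℂ, IsHarmonicMeasure P' X ν ∧ ν ⟂ₘ arcLength := by
  have hsum : S_SUM.{u} := sum_ hmob hlip hmen hmqn0 hmqn hlaw hce
  have hzero : S_ZERO.{u} := zero hmob hmen hmqn0 hzo hce hsum hlow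
  have hfub : S_FUB.{u} := fub hmob hmen hmqn hce hzero
  filter_upwards [hce P lam Q hQ hlam, hfub P lam Q hQ hlam] with ω h1 h2
  refine ⟨h1.lf, ?_⟩
  intro x Ω' _ P' _ X hX
  exact hcirc (Q ω) (locFin_countable h1.1) P' X hX.measurable_eq
    (hdiff (Q ω) h1 h2 x P' X hX)

end

end Pool.Agent.Y979.HM
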