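import Pool.Agent.Y979.HM.Iso

/-!
# Measurability of the set of good configurations
-/

set_option autoImplicit false

open MeasureTheory UpperHalfPlane Filter Pool.Agent.Y979.HV
open scoped ENNReal Topology

namespace Pool.Agent.Y979.HM

universe u

noncomputable section

theorem measurable_cnt {B : Set ℍ} (hB : MeasurableSet B) :
    Measurable (fun A : Conf => (pts A ∩ B).encard) := by
  intro s hs
  refine MeasurableSpace.le_def.mp (le_iSup₂ (f := fun (B : Set ℍ)
    (_ : MeasurableSet B ∧ B ⊆ Set.univ) =>
    MeasurableSpace.comap (fun A : Conf => (pts A ∩ B).encard) inferInstance) B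
    ⟨hB, Set.subset_univ _⟩) _ ⟨s, hs, rfl⟩

theorem measurable_mk {Ω : Type*} [MeasurableSpace Ω] {P : Measure Ω} {lam : ℝ}
    {Q : Ω → Set ℍ} (hQ : IsPoissonProcess P lam Q) : Measurable (fun ω => mk (Q ω)) := by
  refine Measurable.of_comap_le ?_
  show MeasurableSpace.comap _ (cs Set.univ) ≤ _
  unfold cs
  rw [MeasurableSpace.comap_iSup]
  refine iSup_le fun B => ?_
  rw [MeasurableSpace.comap_iSup]
  refine iSup_le fun hB => ?_
  rw [MeasurableSpace.comap_comp]
  exact (hQ.measurable_count B hB.1).comap_le

theorem locFin_iff (A : Set ℍ) :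
    LocFin A ↔ ∀ n : ℕ, (A ∩ Metric.closedBall I n).encard ≠ ⊤ := by
  constructor
  · intro h n
    exact (Set.encard_ne_top_iff).mpr (h I n)
  · intro h z R
    obtain ⟨n, hn⟩ := exists_nat_ge (R + dist z I)
    refine (Set.encard_ne_top_iff.mp (h n)).subset ?_
    refine Set.inter_subset_inter_right _ (Metric.closedBall_subset_closedBall' ?_)
    exact hn

theorem measurableSet_locFin : MeasurableSet {A : Conf | LocFin (pts A)} := by
  have : {A : Conf | LocFin (pts A)} =
      ⋂ n : ℕ, {A : Conf | (pts A ∩ Metric.closedBall I n).encard ≠ ⊤} := by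
    ext A
    simp only [Set.mem_iInter]
    exact locFin_iff _
  rw [this]
  refine MeasurableSet.iInter fun n => ?_
  exact (measurable_cnt Metric.isClosed_closedBall.measurableSet)
    (MeasurableSet.of_discrete (s := {x : ℕ∞ | x ≠ ⊤}))

theorem locFin_empty : LocFin (∅ : Set ℍ) := fun z R => by simp

theorem good_empty : Good (∅ : Set ℍ) := by
  refine ⟨locFin_empty, ?_, ?_⟩ <;>
  · unfold En
    have : IsEmpty ((∅ : Set ℍ) × (∅ : Set ℍ)) := by
      constructor
      rintro ⟨a, _⟩
      exact a.2
    rw [tsum_empty]
    exact ENNReal.zero_lt_top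

open Classical in
/-- replace configurations which are not locally finite -/
def T0 (A : Conf) : Conf := if LocFin (pts A) then A else mk ∅

theorem measurable_T0 : Measurable T0 :=
  Measurable.ite measurableSet_locFin measurable_id measurable_const

theorem locFin_T0 (A : Conf) : LocFin (pts (T0 A)) := by
  unfold T0
  split_ifs with h
  · exact h
  · exact locFin_empty

theorem measurable_cay : Measurable cay := by
  have h1 : Continuous cay := by
    unfold cay
    refine Continuous.div (by fun_prop) (by fun_prop) fun z => ?_
    exact norm_pos_iff.mp (norm_add_I_pos z)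
  exact h1.measurable

theorem measurableSet_good (hmen : S_MEN.{0}) : MeasurableSet {A : Conf | Good (pts A)} := by
  have h1 := hmen T0 measurable_T0 locFin_T0 (fun _ z => (cay z).re)
    (Complex.measurable_re.comp (measurable_cay.comp measurable_snd))
  have h2 := hmen T0 measurable_T0 locFin_T0 (fun _ z => (cay z).im)
    (Complex.measurable_im.comp (measurable_cay.comp measurable_snd))
  have : {A : Conf | Good (pts A)} = {A : Conf | LocFin (pts A)} ∩
      ({A | En (voronoiGraph (pts (T0 A))) (fun x => (cay x).re) < ⊤} ∩
      {A | En (voronoiGraph (pts (T0 A))) (fun x => (cay x).im) < ⊤}) := by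
    ext A
    by_cases h : LocFin (pts A)
    · have e : T0 A = A := by
        unfold T0
        rw [if_pos h]
      simp only [Set.mem_inter_iff, Set.mem_ofPred_eq]
      rw [e]
      rfl
    · simp only [Set.mem_inter_iff, Set.mem_ofPred_eq, h, false_and, iff_false]
      exact fun hg => h hg.1
  rw [this]
  exact measurableSet_locFin.inter ((measurableSet_lt h1 measurable_const).inter
    (measurableSet_lt h2 measurable_const))

open Classical in
/-- replace configurations which are not good -/
def TG (A : Conf) : Conf := if Good (pts A) then A else mk ∅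

theorem measurable_TG (hmen : S_MEN.{0}) : Measurable TG :=
  Measurable.ite (measurableSet_good hmen) measurable_id measurable_const

theorem good_TG (A : Conf) : Good (pts (TG A)) := by
  unfold TG
  split_ifs with h
  · exact h
  · exact good_empty

theorem TG_of_good {A : Conf} (h : Good (pts A)) : TG A = A := by
  unfold TG
  rw [if_pos h]

/-- measurability of the bilinear form -/
theorem measurable_bn (hmen : S_MEN.{0}) (hmqn : S_MQN.{u}) {α : Type u} [MeasurableSpace α]
    {T : α → Conf} (hT : Measurable T) {F H : α → ℍ → ℝ}
    (hF : Measurable (fun p : α × ℍ => F p.1 p.2)) (hH : Measurable (fun p : α × ℍ => H p.1 p.2)) :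
    Measurable (fun a => bn (voronoiGraph (pts (TG (T a)))) (fun x => F a x) (fun x => H a x)) := by
  unfold bn
  have h1 := hmqn (fun a => TG (T a)) ((measurable_TG hmen).comp hT) (fun a => (good_TG _).1)
    (fun a => (good_TG _).lf) (fun a x => F a x - H a x) (hF.sub hH)
  have h2 := hmqn (fun a => TG (T a)) ((measurable_TG hmen).comp hT) (fun a => (good_TG _).1)
    (fun a => (good_TG _).lf) (fun a x => F a x + H a x) (hF.add hH)
  exact (h1.ennreal_toReal.sub h2.ennreal_toReal).div_const 4

end

end Pool.Agent.Y979.HM
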