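import Pool.Agent.Y979.HM.Iso

/-!
# Sums over tiles
-/

set_option autoImplicit false

open MeasureTheory UpperHalfPlane Filter Pool.Agent.Y979.HV
open scoped ENNReal Topology

namespace Pool.Agent.Y979.HM

noncomputable section

theorem tiles_sum {KK : Set (ℤ × ℤ)} {M : ℝ} {N : ℤ} (hM : 1 ≤ M) (hN : N ≤ 0)
    (h : ∀ p ∈ KK, p.1 ≤ N ∧ |(p.2 : ℝ)| * 2 ^ p.1 ≤ M) :
    ∑' p : KK, ENNReal.ofReal ((4 : ℝ) ^ p.1.1) ≤ ENNReal.ofReal (6 * M * 2 ^ N) := by
  classical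
  -- the rows
  have hrow : ∀ n : ℤ, n ≤ N → ∑' k : ℤ, KK.indicator (fun p : ℤ × ℤ =>
      ENNReal.ofReal ((4 : ℝ) ^ p.1)) (n, k) ≤ ENNReal.ofReal (3 * M * 2 ^ n) := by
    intro n hn
    have h2n : (0 : ℝ) < 2 ^ n := by positivity
    have h2n1 : (2 : ℝ) ^ n ≤ 1 := zpow_le_one_of_nonpos₀ (by norm_num) (hn.trans hN)
    set R : ℤ := ⌊M / 2 ^ n⌋ with hR
    have hR0 : 0 ≤ R := Int.floor_nonneg.mpr (by positivity)
    have hsup : ∀ k : ℤ, k ∉ Finset.Icc (-R) R → KK.indicator (fun p : ℤ × ℤ =>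
      ENNReal.ofReal ((4 : ℝ) ^ p.1)) (n, k) = 0 := by
      intro k hk
      rw [Set.indicator_of_notMem]
      intro hp
      apply hk
      have h1 := (h _ hp).2
      have h2 : |(k : ℝ)| ≤ M / 2 ^ n := by rwa [le_div_iff₀ h2n]
      rw [Finset.mem_Icc, ← abs_le, hR, Int.le_floor]
      push_cast
      exact h2
    rw [tsum_eq_sum (s := Finset.Icc (-R) R) fun k hk => hsup k hk]
    calc ∑ k ∈ Finset.Icc (-R) R, KK.indicator (fun p : ℤ × ℤ =>
          ENNReal.ofReal ((4 : ℝ) ^ p.1)) (n, k)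
        ≤ ∑ _k ∈ Finset.Icc (-R) R, ENNReal.ofReal ((4 : ℝ) ^ n) :=
          Finset.sum_le_sum fun k _ => Set.indicator_le_self _ _ _
      _ = ENNReal.ofReal (((2 * R + 1 : ℤ) : ℝ) * 4 ^ n) := by
          rw [Finset.sum_const, Int.card_Icc, nsmul_eq_mul, ENNReal.ofReal_mul (by
            have : 0 ≤ 2 * R + 1 := by omega
            exact_mod_cast this)]
          congr 1
          rw [← ENNReal.ofReal_natCast]
          congr 1
          have h3 : ((R + 1 - -R).toNat : ℤ) = 2 * R + 1 := by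
            rw [Int.toNat_of_nonneg (by omega)]
            ring
          exact_mod_cast h3
      _ ≤ ENNReal.ofReal (3 * M * 2 ^ n) := by
          refine ENNReal.ofReal_le_ofReal ?_
          have h4 : (R : ℝ) * 2 ^ n ≤ M := by
            have := Int.floor_le (M / 2 ^ n)
            rw [← hR, le_div_iff₀ h2n] at this
            exact this
          have h5 : (4 : ℝ) ^ n = 2 ^ n * 2 ^ n := by
            rw [← mul_zpow]
            norm_num
          rw [h5]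
          push_cast
          nlinarith
  rw [tsum_subtype KK (fun p : ℤ × ℤ => ENNReal.ofReal ((4 : ℝ) ^ p.1)), ENNReal.tsum_prod']
  have hzero : ∀ n : ℤ, ¬ n ≤ N → ∑' k : ℤ, KK.indicator (fun p : ℤ × ℤ =>
      ENNReal.ofReal ((4 : ℝ) ^ p.1)) (n, k) = 0 := by
    intro n hn
    rw [ENNReal.tsum_eq_zero]
    intro k
    rw [Set.indicator_of_notMem]
    exact fun hp => hn (h _ hp).1
  have hinj : Function.Injective (fun j : ℕ => N - (j : ℤ)) := by
    intro i j hij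
    have : N - (i : ℤ) = N - (j : ℤ) := hij
    omega
  rw [← hinj.tsum_eq (f := fun n : ℤ => ∑' k : ℤ, KK.indicator (fun p : ℤ × ℤ =>
      ENNReal.ofReal ((4 : ℝ) ^ p.1)) (n, k)) (by
    intro n hn
    have h1 : n ≤ N := by
      by_contra h2
      exact hn (hzero n h2)
    exact ⟨(N - n).toNat, by show N - ((N - n).toNat : ℤ) = n; omega⟩)]
  calc ∑' j : ℕ, ∑' k : ℤ, KK.indicator (fun p : ℤ × ℤ =>
        ENNReal.ofReal ((4 : ℝ) ^ p.1)) (N - (j : ℤ), k)
      ≤ ∑' j : ℕ, ENNReal.ofReal (3 * M * 2 ^ N * (1 / 2) ^ j) := by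
        refine ENNReal.tsum_le_tsum fun j => (hrow _ (by omega)).trans (le_of_eq ?_)
        congr 1
        rw [zpow_sub₀ (by norm_num), zpow_natCast, one_div, inv_pow]
        ring
    _ = ENNReal.ofReal (∑' j : ℕ, 3 * M * 2 ^ N * (1 / 2) ^ j) := by
        rw [ENNReal.ofReal_tsum_of_nonneg (fun j => by positivity)
          ((summable_geometric_two).mul_left _)]
    _ = ENNReal.ofReal (6 * M * 2 ^ N) := by
        rw [tsum_mul_left, tsum_geometric_two]
        congr 1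
        ring

theorem tile_bounds {p : ℤ × ℤ} {z : ℍ} (hz : z ∈ tile p) :
    (2 : ℝ) ^ p.1 ≤ z.im ∧ |(p.2 : ℝ)| * 2 ^ p.1 ≤ |z.re| + 2 ^ p.1 := by
  obtain ⟨h1, h2, h3, _⟩ := hz
  refine ⟨h3, ?_⟩
  have h0 : (0 : ℝ) < 2 ^ p.1 := by positivity
  rw [← abs_of_pos h0, ← abs_mul, abs_of_pos h0, abs_le]
  have h4 := le_abs_self z.re
  have h5 := neg_abs_le z.re
  constructor
  · linarith
  · linarith

theorem gk : S_GK := by
  refine ⟨ENNReal.ofReal 9408, ENNReal.ofReal_lt_top, fun κ hκ hκ1 => ?_⟩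
  set N : ℤ := Int.log 2 (28 * κ) with hN
  have h28 : 0 < 28 * κ := by positivity
  have hN2 : (2 : ℝ) ^ N ≤ 28 * κ := by
    have := Int.zpow_log_le_self (b := 2) one_lt_two h28
    exact_mod_cast this
  have hN0 : N ≤ 0 := by
    by_contra hcon
    have h1 : (1 : ℝ) ≤ 2 ^ N := one_le_zpow₀ (by norm_num) (by omega)
    linarith
  have hexp : Real.exp 4 < 55 := by
    have h1 := Real.exp_one_lt_d9
    have h2 : Real.exp 4 = Real.exp 1 ^ 4 := by
      rw [← Real.exp_nat_mul]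
      norm_num
    rw [h2]
    have h3 : Real.exp 1 ^ 4 < 2.7182818286 ^ 4 :=
      pow_lt_pow_left₀ h1 (Real.exp_pos 1).le (by norm_num)
    refine h3.trans ?_
    norm_num
  refine (tiles_sum (M := 56) (N := N) (by norm_num) hN0 ?_).trans ?_
  · rintro p ⟨z, hz, hz1, hz2⟩
    obtain ⟨b1, b2⟩ := tile_bounds hz
    have hn : ‖(z : ℂ)‖ < Real.exp 4 := by
      rw [← exp_sc]
      exact Real.exp_lt_exp.mpr (lt_of_le_of_lt (le_abs_self _) hz1)
    have hs : Real.sin (κ / 2) ≤ κ / 2 := Real.sin_le (by positivity)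
    have him : z.im < 28 * κ := by
      calc z.im < Real.sin (κ / 2) * ‖(z : ℂ)‖ := hz2
        _ ≤ κ / 2 * ‖(z : ℂ)‖ := by gcongr
        _ ≤ κ / 2 * 55 := by gcongr; linarith
        _ ≤ 28 * κ := by linarith
    have h2 : (2 : ℝ) ^ p.1 ≤ 28 * κ := by linarith
    refine ⟨?_, ?_⟩
    · rw [hN]
      refine (Int.zpow_le_iff_le_log (b := 2) one_lt_two h28).mp ?_
      exact_mod_cast h2
    · have h3 := abs_re_le_norm z
      linarith
  · rw [← ENNReal.ofReal_mul (by norm_num)]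
    refine ENNReal.ofReal_le_ofReal ?_
    linarith

theorem unit_tiles : ∑' p : {p : ℤ × ℤ | (tile p ∩ {z : ℍ | ‖(z : ℂ)‖ ≤ 1}).Nonempty},
    ENNReal.ofReal ((4 : ℝ) ^ p.1.1) < ⊤ := by
  refine (tiles_sum (M := 2) (N := 0) (by norm_num) le_rfl ?_).trans_lt ENNReal.ofReal_lt_top
  rintro p ⟨z, hz, hz1⟩
  obtain ⟨b1, b2⟩ := tile_bounds hz
  have hz1' : ‖(z : ℂ)‖ ≤ 1 := hz1
  have h3 := im_le_norm z
  have h4 := abs_re_le_norm z
  have h5 : (2 : ℝ) ^ p.1 ≤ 1 := by linarith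
  constructor
  · by_contra hcon
    have h1 : (2 : ℝ) ^ (1 : ℤ) ≤ 2 ^ p.1 := zpow_le_zpow_right₀ (by norm_num) (by omega)
    rw [zpow_one] at h1
    linarith
  · linarith

end

end Pool.Agent.Y979.HM
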