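import Pool.Agent.Y781.HM.GE1
import Pool.Agent.Y979.HM.Tiles
import Pool.Agent.Y979.HM.Meas

/-!
# The configuration is good almost surely
-/

set_option autoImplicit false

open MeasureTheory UpperHalfPlane Filter Pool.Agent.Y979.HV
open scoped ENNReal Topology

namespace Pool.Agent.Y979.HM

open Pool.Agent.Y781.HM

universe u

noncomputable section

/-- there is an empty ball with the two points on its boundary -/
def touch (A : Set ℍ) (w x : ℍ) : Prop :=
  ∃ c : ℍ, dist c w = dist c x ∧ A ∩ Metric.ball c (dist c w) = ∅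

theorem touch_of_adj {A : Set ℍ} {x y : A} (h : (voronoiGraph A).Adj x y) :
    touch A (x : ℍ) (y : ℍ) := by
  obtain ⟨z, hz1, hz2⟩ := exists_touch h
  refine ⟨z, le_antisymm (hz1 y y.2) (hz2 x x.2), ?_⟩
  rw [Set.eq_empty_iff_forall_notMem]
  rintro v ⟨hv, hv2⟩
  rw [Metric.mem_ball, dist_comm] at hv2
  exact absurd (hz1 v hv) (not_le.mpr hv2)

theorem touch_image {e : ℍ ≃ ℍ} (he : Isometry e) {A : Set ℍ} {w x : ℍ} (h : touch A w x) :
    touch (e '' A) (e w) (e x) := by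
  obtain ⟨c, h1, h2⟩ := h
  refine ⟨e c, by rw [he.dist_eq, he.dist_eq]; exact h1, ?_⟩
  rw [Set.eq_empty_iff_forall_notMem] at h2 ⊢
  rintro _ ⟨⟨v, hv, rfl⟩, hv2⟩
  rw [Metric.mem_ball, he.dist_eq, he.dist_eq] at hv2
  exact h2 v ⟨hv, hv2⟩

/-- the energy of a pair, for a first point in the unit disc -/
def lc (A : Set ℍ) (w x : ℍ) : ℝ≥0∞ := open Classical in
  if ‖(w : ℂ)‖ ≤ 1 ∧ touch A w x then ENNReal.ofReal (w.im ^ 2 * Real.exp (2 * dist w x)) else 0

/-- the total energy of the pairs with a first point in the unit disc -/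
def Yl (A : Set ℍ) : ℝ≥0∞ := ∑' w : A, ∑' x : A, lc A w x

/-- the tiles that meet the unit disc -/
def KU : Set (ℤ × ℤ) := {p : ℤ × ℤ | (tile p ∩ {z : ℍ | ‖(z : ℂ)‖ ≤ 1}).Nonempty}

open Classical in
/-- the weight of a tile -/
def gu (A : Set ℍ) (p : ℤ × ℤ) : ℝ≥0∞ :=
  ∑' L : ℕ, if Bad Set.univ p L A then
    ENNReal.ofReal ((4 : ℝ) ^ p.1 * Real.exp (4 * L)) *
      (32 + (((A ∩ (Set.univ ∩ Metric.closedBall (ctr p) (2 * L + 3))).encard : ℕ∞) : ℝ≥0∞))
    else 0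

theorem sum_lc (htd : S_TD) (A : Set ℍ) (w : ℍ) (p : ℤ × ℤ) (hp : w ∈ tile p) :
    ∑' x : A, lc A w x ≤ 4 * gu A p := by
  classical
  set S : Set ℍ := {x | x ∈ A ∧ touch A w x} with hS
  have h1 : ∑' x : A, lc A w x ≤
      ∑' x : S, ENNReal.ofReal (w.im ^ 2 * Real.exp (2 * dist w x)) := by
    rw [tsum_subtype A (fun x : ℍ => lc A w x), tsum_subtype S
      (fun x : ℍ => ENNReal.ofReal (w.im ^ 2 * Real.exp (2 * dist w x)))]
    refine ENNReal.tsum_le_tsum fun x => ?_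
    by_cases hx : x ∈ A
    · rw [Set.indicator_of_mem hx]
      unfold lc
      split_ifs with h
      · rw [Set.indicator_of_mem (show x ∈ S from ⟨hx, h.2⟩)]
      · exact zero_le
    · rw [Set.indicator_of_notMem hx]
      exact zero_le
  refine h1.trans ((htd A Set.univ p w hp S ?_).trans ?_)
  · rintro x ⟨_, c, h2, h3⟩
    refine ⟨dist c w, dist_nonneg, ?_, Or.inr ⟨c, le_rfl, Set.subset_univ _, ?_⟩⟩
    · have := dist_triangle w c x
      rw [dist_comm w c, ← h2] at this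
      linarith
    · rw [Set.eq_empty_iff_forall_notMem] at h3 ⊢
      rintro v ⟨hv, hv2⟩
      exact h3 v ⟨hv, Metric.ball_subset_ball (by linarith) hv2⟩
  · gcongr
    unfold gu
    refine ENNReal.tsum_le_tsum fun L => ?_
    split_ifs with hb
    · gcongr
      have h4 : (S ∩ Metric.closedBall (ctr p) (2 * L + 3)).encard ≤
          (A ∩ (Set.univ ∩ Metric.closedBall (ctr p) (2 * L + 3))).encard := by
        refine Set.encard_le_encard ?_
        rintro x ⟨hx1, hx2⟩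
        exact ⟨hx1.1, Set.mem_univ _, hx2⟩
      have h5 : (((S ∩ Metric.closedBall (ctr p) (2 * L + 3)).encard : ℕ∞) : ℝ≥0∞) ≤
          (((A ∩ (Set.univ ∩ Metric.closedBall (ctr p) (2 * L + 3))).encard : ℕ∞) : ℝ≥0∞) := by
        exact_mod_cast h4
      exact h5.trans le_add_self
    · exact le_rfl

theorem Yl_le (htd : S_TD) (A : Set ℍ) : Yl A ≤ 4 * Psi Set.univ KU A := by
  classical
  unfold Yl
  have h1 : ∀ w : A, ∑' x : A, lc A w x ≤ ∑' p : KU,
      (if (w : ℍ) ∈ tile p ∩ Set.univ then 4 * gu A p else 0) := by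
    intro w
    by_cases hw : ‖((w : ℍ) : ℂ)‖ ≤ 1
    · obtain ⟨p, hp⟩ := exists_tile (w : ℍ)
      have hpK : p ∈ KU := ⟨w, hp, hw⟩
      refine (sum_lc htd A w p hp).trans ?_
      refine le_trans ?_ (ENNReal.le_tsum (⟨p, hpK⟩ : KU))
      exact le_of_eq (if_pos (show (w : ℍ) ∈ tile p ∩ Set.univ from ⟨hp, Set.mem_univ _⟩)).symm
    · have h2 : ∀ x : A, lc A w x = 0 := fun x => if_neg (fun h => hw h.1)
      simp only [h2, tsum_zero]
      exact zero_le
  refine (ENNReal.tsum_le_tsum h1).trans ?_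
  rw [ENNReal.tsum_comm]
  unfold Psi
  rw [← ENNReal.tsum_mul_left]
  refine ENNReal.tsum_le_tsum fun p => ?_
  have h3 := tsum_ind A (tile p ∩ Set.univ) (4 * gu A p)
  have h4 : ∑' w : A, (if (w : ℍ) ∈ tile (p : ℤ × ℤ) ∩ Set.univ then 4 * gu A p else 0) =
      ((A ∩ (tile (p : ℤ × ℤ) ∩ Set.univ)).encard : ℝ≥0∞) * (4 * gu A p) := by
    rw [← h3]
    refine tsum_congr fun w => ?_
    congr
  rw [h4, mul_left_comm]
  gcongr
  unfold gu
  rw [← ENNReal.tsum_mul_left]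
  refine ENNReal.tsum_le_tsum fun L => ?_
  by_cases hb : Bad Set.univ (p : ℤ × ℤ) L A
  · simp only [if_pos hb]
    rw [mul_left_comm, mul_assoc]
  · simp only [if_neg hb, mul_zero, le_refl]

theorem cay_le (w x : ℍ) : ‖cay w - cay x‖ ^ 2 ≤ 4 * (w.im ^ 2 * Real.exp (2 * dist w x)) := by
  have h1 := norm_sub_sq_le x w
  have hw : 1 ≤ ‖(w : ℂ) + Complex.I‖ := by
    have := Complex.abs_im_le_norm ((w : ℂ) + Complex.I)
    rw [Complex.add_im, UpperHalfPlane.coe_im, Complex.I_im] at this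
    have h := le_abs_self (w.im + 1)
    linarith [w.im_pos]
  have hx : 1 ≤ ‖(x : ℂ) + Complex.I‖ := by
    have := Complex.abs_im_le_norm ((x : ℂ) + Complex.I)
    rw [Complex.add_im, UpperHalfPlane.coe_im, Complex.I_im] at this
    have h := le_abs_self (x.im + 1)
    linarith [x.im_pos]
  have h2 : ‖cay w - cay x‖ ≤ 2 * ‖(w : ℂ) - x‖ := by
    rw [norm_cay_sub]
    refine div_le_of_le_mul₀ (by positivity) (by positivity) ?_
    have h3 : 1 ≤ ‖(w : ℂ) + Complex.I‖ * ‖(x : ℂ) + Complex.I‖ := by nlinarith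
    have h4 : 0 ≤ 2 * ‖(w : ℂ) - x‖ := by positivity
    nlinarith
  calc ‖cay w - cay x‖ ^ 2 ≤ (2 * ‖(w : ℂ) - x‖) ^ 2 := pow_le_pow_left₀ (norm_nonneg _) h2 2
    _ = 4 * ‖(x : ℂ) - w‖ ^ 2 := by rw [norm_sub_rev]; ring
    _ ≤ _ := by
      exact mul_le_mul_of_nonneg_left h1 (by norm_num)

theorem exists_inv (hmob : S_MOB) : ∃ e : ℍ ≃ᵐ ℍ, Isometry e ∧
    MeasurePreserving e volume volume ∧ ∀ z, (e z : ℂ) = -1 / (z : ℂ) := by
  obtain ⟨e, he1, he2, he3⟩ := hmob 0 (-1) 1 0 (by norm_num)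
  refine ⟨e, he1, he2, fun z => ?_⟩
  rw [he3]
  push_cast
  ring

theorem cay_inv {e : ℍ ≃ᵐ ℍ} (he : ∀ z, (e z : ℂ) = -1 / (z : ℂ)) (z : ℍ) :
    cay (e z) = -cay z := by
  unfold cay
  have hz : (z : ℂ) ≠ 0 := z.ne_zero
  have h1 : (z : ℂ) + Complex.I ≠ 0 := norm_pos_iff.mp (norm_add_I_pos z)
  have h2 : ((e z : ℍ) : ℂ) + Complex.I ≠ 0 := norm_pos_iff.mp (norm_add_I_pos (e z))
  rw [← neg_div, div_eq_div_iff h2 h1, he]
  field_simp
  ring_nf
  rw [Complex.I_sq]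
  ring

theorem sum_cay_le {e : ℍ ≃ᵐ ℍ} (he1 : Isometry e) (he : ∀ z, (e z : ℂ) = -1 / (z : ℂ))
    (A : Set ℍ) : En (voronoiGraph A) (fun x => (cay x).re) +
      En (voronoiGraph A) (fun x => (cay x).im) ≤ 4 * Yl A + 4 * Yl (e '' A) := by
  classical
  have h0 : Yl (e '' A) = ∑' w : A, ∑' x : A, lc (e '' A) (e w) (e x) := by
    unfold Yl
    rw [← (Equiv.Set.image e A e.injective).tsum_eq (fun w : (e '' A : Set ℍ) =>
      ∑' x : (e '' A : Set ℍ), lc (e '' A) w x)]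
    refine tsum_congr fun w => ?_
    rw [← (Equiv.Set.image e A e.injective).tsum_eq (fun x : (e '' A : Set ℍ) =>
      lc (e '' A) (Equiv.Set.image e A e.injective w : ℍ) x)]
    rfl
  rw [h0]
  unfold Yl En
  rw [← ENNReal.tsum_add, ← ENNReal.tsum_mul_left, ← ENNReal.tsum_mul_left, ← ENNReal.tsum_add,
    ENNReal.tsum_prod' ]
  refine ENNReal.tsum_le_tsum fun w => ?_
  rw [← ENNReal.tsum_mul_left, ← ENNReal.tsum_mul_left, ← ENNReal.tsum_add]
  refine ENNReal.tsum_le_tsum fun x => ?_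
  simp only
  split_ifs with hadj
  · rw [← ENNReal.ofReal_add (sq_nonneg _) (sq_nonneg _), ← norm_cay_sub_sq]
    have ht := touch_of_adj hadj
    have four : (4 : ℝ≥0∞) = ENNReal.ofReal 4 := by norm_num
    rcases le_or_gt ‖((w : ℍ) : ℂ)‖ 1 with hw | hw
    · refine le_trans ?_ le_self_add
      unfold lc
      rw [if_pos ⟨hw, ht⟩, four, ← ENNReal.ofReal_mul (by norm_num)]
      exact ENNReal.ofReal_le_ofReal (cay_le _ _)
    · refine le_trans ?_ le_add_self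
      unfold lc
      have hew : ‖((e w : ℍ) : ℂ)‖ ≤ 1 := by
        rw [he, norm_div, norm_neg, norm_one]
        exact (div_le_one (by linarith)).mpr hw.le
      rw [if_pos ⟨hew, touch_image (e := e.toEquiv) he1 ht⟩, four,
        ← ENNReal.ofReal_mul (by norm_num)]
      refine ENNReal.ofReal_le_ofReal ?_
      have h5 := cay_le (e w) (e x)
      rw [cay_inv he, cay_inv he, neg_sub_neg, norm_sub_rev] at h5
      exact h5
  · simp

theorem ae_psi (htm : S_TM) {Ω : Type u} [MeasurableSpace Ω] (P : Measure Ω)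
    [IsProbabilityMeasure P] (lam : ℝ) (Q : Ω → Set ℍ) (hQ : IsPoissonProcess P lam Q)
    (hlam : 0 < lam) (hte : S_TE.{u}) : ∀ᵐ ω ∂P, Psi Set.univ KU (Q ω) < ⊤ := by
  obtain ⟨C, hC, h⟩ := hte lam hlam
  have h1 := h P Q hQ Set.univ KU MeasurableSet.univ
  have h2 : ∫⁻ ω, Psi Set.univ KU (Q ω) ∂P ≠ ⊤ := by
    refine (h1.trans_lt ?_).ne
    exact ENNReal.mul_lt_top hC unit_tiles
  have hm : Measurable (fun ω => Psi Set.univ KU (Q ω)) :=
    (htm Set.univ KU MeasurableSet.univ).comp (measurable_mk hQ)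
  exact ae_lt_top hm h2

theorem ce (hmob : S_MOB) (htd : S_TD) (hte : S_TE.{u}) (htm : S_TM) : S_CE.{u} := by
  intro Ω _ P _ lam Q hQ hlam
  obtain ⟨e, he1, he2, he⟩ := exists_inv hmob
  have h1 := ae_psi htm P lam Q hQ hlam hte
  have h2 := ae_psi htm P lam _ (isPoisson_image hQ e he2) hlam hte
  filter_upwards [ae_locFin hQ hlam, h1, h2] with ω h0 h1 h2
  have h3 : En (voronoiGraph (Q ω)) (fun x => (cay x).re) +
      En (voronoiGraph (Q ω)) (fun x => (cay x).im) < ⊤ := by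
    refine (sum_cay_le he1 he (Q ω)).trans_lt ?_
    have a1 : Yl (Q ω) < ⊤ := (Yl_le htd (Q ω)).trans_lt (ENNReal.mul_lt_top (by simp) h1)
    have a2 : Yl (e '' Q ω) < ⊤ :=
      (Yl_le htd (e '' Q ω)).trans_lt (ENNReal.mul_lt_top (by simp) h2)
    exact ENNReal.add_lt_top.mpr ⟨ENNReal.mul_lt_top (by simp) a1,
      ENNReal.mul_lt_top (by simp) a2⟩
  exact ⟨h0, (ENNReal.add_lt_top.mp h3).1, (ENNReal.add_lt_top.mp h3).2⟩

end

end Pool.Agent.Y979.HM
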