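import Pool.Agent.Y979.HM.Iso

/-!
# Comparison of bumps, partition of unity
-/

set_option autoImplicit false

open MeasureTheory UpperHalfPlane Filter Pool.Agent.Y979.HV
open scoped ENNReal Topology

namespace Pool.Agent.Y979.HM

noncomputable section

theorem tent_nonneg (s r : ℝ) (z : ℍ) : 0 ≤ tent s r z := le_max_left _ _

theorem gen_nonneg (s t r : ℝ) (z : ℍ) : 0 ≤ gen s t r z := le_max_left _ _

theorem norm_sub_real_pos (z : ℍ) (t : ℝ) : 0 < ‖(z : ℂ) - t‖ := by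
  rw [norm_pos_iff]
  intro h
  have h1 := congrArg Complex.im h
  simp only [Complex.sub_im, UpperHalfPlane.coe_im, Complex.ofReal_im, Complex.zero_im] at h1
  linarith [z.im_pos]

theorem tent_pos_iff {s r : ℝ} (hr : 0 < r) {z : ℍ} : 0 < tent s r z ↔ ‖(z : ℂ) - s‖ < r := by
  unfold tent
  rw [lt_max_iff, lt_self_iff_false, false_or, sub_pos, div_lt_one hr]

theorem gen_pos_iff {s t r : ℝ} (hr : 0 < r) {z : ℍ} :
    0 < gen s t r z ↔ ‖(z : ℂ) - s‖ < r * ‖(z : ℂ) - t‖ := by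
  unfold gen
  rw [lt_max_iff, lt_self_iff_false, false_or, sub_pos,
    div_lt_one (mul_pos hr (norm_sub_real_pos z t))]

theorem dist_real (s t : ℝ) : ‖((s : ℂ) - t)‖ = |s - t| := by
  rw [← Complex.ofReal_sub, Complex.norm_real, Real.norm_eq_abs]

theorem abs_sub_le_norms (z : ℍ) (s t : ℝ) : |s - t| ≤ ‖(z : ℂ) - s‖ + ‖(z : ℂ) - t‖ := by
  rw [← dist_real]
  calc ‖(s : ℂ) - t‖ = ‖((z : ℂ) - t) - ((z : ℂ) - s)‖ := by ring_nf
    _ ≤ ‖(z : ℂ) - t‖ + ‖(z : ℂ) - s‖ := norm_sub_le _ _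
    _ = _ := by ring

theorem gen_le_tent {s t r D : ℝ} (hr : 0 < r) (hr4 : r < 1 / 4) (hD : |s - t| = D) (hD0 : 0 < D)
    (z : ℍ) : gen s t r z ≤ tent s (2 * r * D) z := by
  rcases (gen_nonneg s t r z).eq_or_lt with h | h
  · rw [← h]; exact tent_nonneg _ _ _
  · have h1 := (gen_pos_iff hr).mp h
    have ht := norm_sub_real_pos z t
    have h2 : ‖(z : ℂ) - t‖ ≤ ‖(z : ℂ) - s‖ + D := by
      rw [← hD, ← dist_real]
      calc ‖(z : ℂ) - t‖ = ‖((z : ℂ) - s) + ((s : ℂ) - t)‖ := by ring_nf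
        _ ≤ _ := norm_add_le _ _
    have h3 : ‖(z : ℂ) - t‖ ≤ 2 * D := by nlinarith
    unfold gen tent
    refine max_le_max le_rfl ?_
    have h4 : ‖(z : ℂ) - s‖ / (2 * r * D) ≤ ‖(z : ℂ) - s‖ / (r * ‖(z : ℂ) - t‖) := by
      refine div_le_div_of_nonneg_left (norm_nonneg _) (mul_pos hr ht) ?_
      nlinarith
    linarith

theorem tent_disjoint {s t ρ : ℝ} (hρ : 0 < ρ) (h : 2 * ρ ≤ |s - t|) (z : ℍ) :
    tent s ρ z * tent t ρ z = 0 := by
  rcases (tent_nonneg s ρ z).eq_or_lt with h1 | h1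
  · rw [← h1, zero_mul]
  rcases (tent_nonneg t ρ z).eq_or_lt with h2 | h2
  · rw [← h2, mul_zero]
  exfalso
  rw [tent_pos_iff hρ] at h1 h2
  have := abs_sub_le_norms z s t
  linarith

theorem cmp (hlip : S_LIP) : S_CMP := by
  intro A hA s t r hst hr hr4
  have hD : |s - t| = t - s := by rw [abs_sub_comm, abs_of_pos (sub_pos.mpr hst)]
  have hD' : |t - s| = t - s := abs_of_pos (sub_pos.mpr hst)
  have hD0 : 0 < t - s := sub_pos.mpr hst
  have hρ : 0 < 2 * r * (t - s) := by positivity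
  have hlt := gen_le_tent hr hr4 hD hD0
  have hlt' := gen_le_tent hr hr4 hD' hD0
  have hdis := tent_disjoint (s := s) (t := t) hρ (by rw [hD]; nlinarith)
  obtain ⟨L1, hL1⟩ := hlip.1 s t r hst.ne hr (by linarith)
  obtain ⟨L2, hL2⟩ := hlip.1 t s r hst.ne' hr (by linarith)
  obtain ⟨L3, hL3⟩ := hlip.2.1 s (2 * r * (t - s)) hρ
  obtain ⟨L4, hL4⟩ := hlip.2.1 t (2 * r * (t - s)) hρ
  have e1 := En_lt_of_lip hA hL1
  have e2 := En_lt_of_lip hA hL2
  have e3 := En_lt_of_lip hA hL3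
  have e4 := En_lt_of_lip hA hL4
  refine (bn_mono_left (f' := fun x : A => tent s (2 * r * (t - s)) x) (fun v => hlt v)
    (fun v => gen_nonneg _ _ _ _) (fun v => ?_) e1 e3 e2).trans
    (bn_mono_right (fun v => hlt' v) (fun v => tent_nonneg _ _ _) (fun v => ?_) e3 e2 e4)
  · rcases (gen_nonneg t s r v).eq_or_lt with h | h
    · rw [← h, mul_zero]
    · have h1 : 0 < tent t (2 * r * (t - s)) v := h.trans_le (hlt' v)
      have h2 : tent s (2 * r * (t - s)) v = 0 := by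
        rcases mul_eq_zero.mp (hdis v) with h3 | h3
        · exact h3
        · exact absurd h3 h1.ne'
      have h3 : gen s t r v = 0 := le_antisymm (by rw [← h2]; exact hlt v) (gen_nonneg _ _ _ _)
      rw [h2, h3]; ring
  · rcases (tent_nonneg s (2 * r * (t - s)) v).eq_or_lt with h | h
    · rw [← h, mul_zero]
    · have h2 : tent t (2 * r * (t - s)) v = 0 := by
        rcases mul_eq_zero.mp (hdis v) with h3 | h3
        · exact absurd h3 h.ne'
        · exact h3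
      have h3 : gen t s r v = 0 := le_antisymm (by rw [← h2]; exact hlt' v) (gen_nonneg _ _ _ _)
      rw [h2, h3]; ring

/-! ## Partition of unity -/

theorem sum_hat_le (S : Finset ℤ) (y : ℝ) : ∑ l ∈ S, max 0 (1 - |y - l|) ≤ (1 : ℝ) := by
  have h1 : ∑ l ∈ S, max 0 (1 - |y - (l : ℝ)|) ≤
      ∑ l ∈ ({⌊y⌋, ⌊y⌋ + 1} : Finset ℤ), max 0 (1 - |y - (l : ℝ)|) := by
    have h0 : ∑ l ∈ S ∩ ({⌊y⌋, ⌊y⌋ + 1} : Finset ℤ), max 0 (1 - |y - (l : ℝ)|) =
        ∑ l ∈ S, max 0 (1 - |y - (l : ℝ)|) := by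
      refine Finset.sum_subset Finset.inter_subset_left fun l hlS hl => ?_
      by_contra hcon
      apply hl
      have hl' : |y - (l : ℝ)| < 1 := by
        by_contra hcon'
        apply hcon
        rw [max_eq_left]
        linarith
      rw [abs_lt] at hl'
      rw [Finset.mem_inter, Finset.mem_insert, Finset.mem_singleton]
      have a1 := Int.floor_le y
      have a2 := Int.lt_floor_add_one y
      have b1 : (l : ℝ) < ⌊y⌋ + 2 := by linarith
      have b2 : ((⌊y⌋ : ℤ) : ℝ) - 1 < l := by linarith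
      have c1 : l < ⌊y⌋ + 2 := by exact_mod_cast b1
      have c2 : ⌊y⌋ - 1 < l := by exact_mod_cast b2
      exact ⟨hlS, by omega⟩
    rw [← h0]
    exact Finset.sum_le_sum_of_subset_of_nonneg Finset.inter_subset_right
      fun _ _ _ => le_max_left _ _
  refine h1.trans ?_
  rw [Finset.sum_pair (by simp)]
  have a1 := Int.floor_le y
  have a2 := Int.lt_floor_add_one y
  push_cast
  rw [abs_of_nonneg (by linarith : (0 : ℝ) ≤ y - ⌊y⌋),
    abs_of_nonpos (by linarith : y - ((⌊y⌋ : ℝ) + 1) ≤ 0), max_eq_right (by linarith),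
    max_eq_right (by linarith)]
  linarith

theorem abs_re_sub_le (z : ℍ) (s : ℝ) : |z.re - s| ≤ ‖(z : ℂ) - s‖ := by
  have := Complex.abs_re_le_norm ((z : ℂ) - s)
  simpa using this

theorem sum_tent_le (S : Finset ℤ) {m : ℕ} (hm : 0 < m) (z : ℍ) :
    ∑ l ∈ S, tent ((l : ℝ) / (4 * m)) (1 / (4 * m)) z ≤ 1 := by
  have hm' : (0 : ℝ) < 4 * m := by positivity
  refine le_trans (Finset.sum_le_sum fun l _ => ?_) (sum_hat_le S (4 * m * z.re))
  unfold tent
  refine max_le_max le_rfl ?_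
  have h1 := abs_re_sub_le z ((l : ℝ) / (4 * m))
  have h2 : |4 * m * z.re - l| = 4 * m * |z.re - l / (4 * m)| := by
    rw [← abs_of_pos hm', ← abs_mul, abs_of_pos hm']
    congr 1
    field_simp
  rw [h2, div_div_eq_mul_div, div_one, mul_comm ‖_‖]
  have := mul_le_mul_of_nonneg_left h1 hm'.le
  linarith

theorem bn_sum_left {V ι : Type*} {G : SimpleGraph V} (S : Finset ι) (f : ι → V → ℝ) {h : V → ℝ}
    (hf : ∀ i, En G (f i) < ⊤) (hh : En G h < ⊤) :
    En G (∑ i ∈ S, f i) < ⊤ ∧ bn G (∑ i ∈ S, f i) h = ∑ i ∈ S, bn G (f i) h := by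
  classical
  have hz : En G (0 : V → ℝ) < ⊤ := by
    unfold En
    simp
  induction S using Finset.induction_on with
  | empty =>
    refine ⟨by simpa using hz, ?_⟩
    have := bn_add_left (G := G) hz hz hh
    rw [add_zero] at this
    simp only [Finset.sum_empty]
    linarith
  | insert a S ha ih =>
    rw [Finset.sum_insert ha, Finset.sum_insert ha]
    exact ⟨En_add_lt (hf a) ih.1, by rw [bn_add_left (hf a) ih.1 hh, ih.2]⟩

theorem Wp_nonneg (z : ℍ) : 0 ≤ Wp z := le_max_left _ _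

theorem Wm_nonneg (z : ℍ) : 0 ≤ Wm z := le_max_left _ _

theorem Wp_eq_one {z : ℍ} (h : Real.exp 1 ≤ ‖(z : ℂ)‖) : Wp z = 1 := by
  have h1 : 1 ≤ sc z := (Real.le_log_iff_exp_le (norm_pos' z)).mpr h
  unfold Wp
  rw [min_eq_left h1, max_eq_right zero_le_one]

theorem Wm_eq_one {z : ℍ} (h : ‖(z : ℂ)‖ ≤ Real.exp (-1)) : Wm z = 1 := by
  have h1 : sc z ≤ -1 := (Real.log_le_iff_le_exp (norm_pos' z)).mpr h
  unfold Wm
  rw [min_eq_left (by linarith), max_eq_right zero_le_one]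

theorem Wp_eq_zero {z : ℍ} (h : ‖(z : ℂ)‖ ≤ 1) : Wp z = 0 := by
  have h1 : sc z ≤ 0 := Real.log_nonpos (norm_nonneg _) h
  unfold Wp
  rw [max_eq_left]
  exact (min_le_right _ _).trans h1

theorem Wm_eq_zero {z : ℍ} (h : 1 ≤ ‖(z : ℂ)‖) : Wm z = 0 := by
  have h1 : 0 ≤ sc z := Real.log_nonneg h
  unfold Wm
  rw [max_eq_left]
  exact (min_le_right _ _).trans (by linarith)

theorem pu (hlip : S_LIP) : S_PU := by
  intro A hA m hm
  have hm0 : 0 < m := by omega
  have hmR : (10 : ℝ) ≤ m := by exact_mod_cast hm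
  have hδ : (0 : ℝ) < 1 / (4 * m) := by positivity
  have hδ' : 1 / (4 * (m : ℝ)) ≤ 1 / 40 := by
    rw [div_le_div_iff₀ (by positivity) (by norm_num)]
    linarith
  set S1 := Finset.Icc (-(m : ℤ)) m with hS1
  set S2 := Finset.Icc (12 * (m : ℤ)) (16 * m) with hS2
  set f : ℤ → A → ℝ := fun l x => tent ((l : ℝ) / (4 * m)) (1 / (4 * m)) x with hf
  have hfE : ∀ l, En (voronoiGraph A) (f l) < ⊤ := by
    intro l
    obtain ⟨L, hL⟩ := hlip.2.1 ((l : ℝ) / (4 * m)) (1 / (4 * m)) hδ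
    exact En_lt_of_lip hA hL
  have hWp : En (voronoiGraph A) (fun x : A => Wp x) < ⊤ := by
    obtain ⟨L, hL⟩ := hlip.2.2.2.1
    exact En_lt_of_lip hA hL
  have hWm : En (voronoiGraph A) (fun x : A => Wm x) < ⊤ := by
    obtain ⟨L, hL⟩ := hlip.2.2.2.2
    exact En_lt_of_lip hA hL
  have hF1 := bn_sum_left (G := voronoiGraph A) S1 f hfE hWm
  have hF2 := bn_sum_left (G := voronoiGraph A) S2 f hfE hWm
  have sum_eq : ∑ l ∈ S1, ∑ k ∈ S2, bn (voronoiGraph A) (f l) (f k) =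
      bn (voronoiGraph A) (∑ l ∈ S1, f l) (∑ k ∈ S2, f k) := by
    rw [(bn_sum_left (G := voronoiGraph A) S1 f hfE hF2.1).2]
    refine Finset.sum_congr rfl fun l _ => ?_
    rw [bn_comm, (bn_sum_left (G := voronoiGraph A) S2 f hfE (hfE l)).2]
    exact Finset.sum_congr rfl fun k _ => bn_comm _ _
  have val1 : ∀ x : A, (∑ l ∈ S1, f l) x = ∑ l ∈ S1, tent ((l : ℝ) / (4 * m)) (1 / (4 * m)) x := by
    intro x
    rw [Finset.sum_apply]
  have val2 : ∀ x : A, (∑ l ∈ S2, f l) x = ∑ l ∈ S2, tent ((l : ℝ) / (4 * m)) (1 / (4 * m)) x := by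
    intro x
    rw [Finset.sum_apply]
  have nn1 : ∀ x : A, 0 ≤ (∑ l ∈ S1, f l) x := fun x => by
    rw [val1]; exact Finset.sum_nonneg fun l _ => tent_nonneg _ _ _
  have nn2 : ∀ x : A, 0 ≤ (∑ l ∈ S2, f l) x := fun x => by
    rw [val2]; exact Finset.sum_nonneg fun l _ => tent_nonneg _ _ _
  -- location of the supports
  have loc1 : ∀ x : A, (∑ l ∈ S1, f l) x ≠ 0 → ‖((x : ℍ) : ℂ)‖ ≤ Real.exp (-1) := by
    intro x hx
    rw [val1] at hx
    obtain ⟨l, hl, hlx⟩ := Finset.exists_ne_zero_of_sum_ne_zero hx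
    have h1 : 0 < tent ((l : ℝ) / (4 * m)) (1 / (4 * m)) x :=
      lt_of_le_of_ne (tent_nonneg _ _ _) (Ne.symm hlx)
    rw [tent_pos_iff hδ] at h1
    rw [hS1, Finset.mem_Icc] at hl
    have h2 : |(l : ℝ) / (4 * m)| ≤ 1 / 4 := by
      rw [abs_div, abs_of_pos (by positivity : (0 : ℝ) < 4 * m), div_le_iff₀ (by positivity)]
      have : |(l : ℝ)| ≤ m := by
        rw [abs_le]
        constructor
        · have := hl.1
          exact_mod_cast this
        · exact_mod_cast hl.2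
      linarith
    have h3 : ‖((x : ℍ) : ℂ)‖ ≤ ‖((x : ℍ) : ℂ) - ((l : ℝ) / (4 * m) : ℝ)‖ + |(l : ℝ) / (4 * m)| := by
      calc ‖((x : ℍ) : ℂ)‖ = ‖(((x : ℍ) : ℂ) - ((l : ℝ) / (4 * m) : ℝ)) + ((l : ℝ) / (4 * m) : ℝ)‖ := by
            congr 1; ring
        _ ≤ _ := by
            refine (norm_add_le _ _).trans (le_of_eq ?_)
            rw [Complex.norm_real, Real.norm_eq_abs]
    have h4 := Real.exp_neg_one_gt_d9
    linarith
  have loc2 : ∀ x : A, (∑ l ∈ S2, f l) x ≠ 0 → Real.exp 1 ≤ ‖((x : ℍ) : ℂ)‖ := by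
    intro x hx
    rw [val2] at hx
    obtain ⟨l, hl, hlx⟩ := Finset.exists_ne_zero_of_sum_ne_zero hx
    have h1 : 0 < tent ((l : ℝ) / (4 * m)) (1 / (4 * m)) x :=
      lt_of_le_of_ne (tent_nonneg _ _ _) (Ne.symm hlx)
    rw [tent_pos_iff hδ] at h1
    rw [hS2, Finset.mem_Icc] at hl
    have h2 : 3 ≤ (l : ℝ) / (4 * m) := by
      rw [le_div_iff₀ (by positivity)]
      have : ((12 * m : ℤ) : ℝ) ≤ l := by exact_mod_cast hl.1
      push_cast at this
      linarith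
    have h3 : (l : ℝ) / (4 * m) ≤ ‖((x : ℍ) : ℂ) - ((l : ℝ) / (4 * m) : ℝ)‖ + ‖((x : ℍ) : ℂ)‖ := by
      calc (l : ℝ) / (4 * m) ≤ |(l : ℝ) / (4 * m)| := le_abs_self _
        _ = ‖(((l : ℝ) / (4 * m) : ℝ) : ℂ)‖ := by rw [Complex.norm_real, Real.norm_eq_abs]
        _ = ‖((x : ℍ) : ℂ) - (((x : ℍ) : ℂ) - ((l : ℝ) / (4 * m) : ℝ))‖ := by congr 1; ring
        _ ≤ _ := by
            refine (norm_sub_le _ _).trans (le_of_eq ?_)
            ring
    have h4 := Real.exp_one_lt_d9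
    linarith
  have exp1 : (1 : ℝ) ≤ Real.exp 1 := by
    have := Real.add_one_le_exp (1 : ℝ); linarith
  have expm : Real.exp (-1) ≤ 1 := by
    rw [Real.exp_le_one_iff]; norm_num
  have s1 : bn (voronoiGraph A) (∑ l ∈ S1, f l) (∑ k ∈ S2, f k) ≤
      bn (voronoiGraph A) (fun x : A => Wm x) (∑ k ∈ S2, f k) := by
    refine bn_mono_left (fun x => ?_) nn2 (fun x => ?_) hF1.1 hWm hF2.1
    · by_cases hx : (∑ l ∈ S1, f l) x = 0
      · rw [hx]; exact Wm_nonneg _
      · rw [Wm_eq_one (loc1 x hx), val1]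
        exact sum_tent_le S1 hm0 x
    · by_cases hx : (∑ l ∈ S2, f l) x = 0
      · rw [hx, mul_zero]
      · have h1 := loc2 x hx
        have h2 : (∑ l ∈ S1, f l) x = 0 := by
          by_contra h3
          have h4 := loc1 x h3
          have h5 : Real.exp (-1) < Real.exp 1 := Real.exp_lt_exp.mpr (by norm_num)
          linarith
        rw [h2, Wm_eq_zero (exp1.trans h1)]
        ring
  have s2 : bn (voronoiGraph A) (fun x : A => Wm x) (∑ k ∈ S2, f k) ≤
      bn (voronoiGraph A) (fun x : A => Wm x) (fun x : A => Wp x) := by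
    refine bn_mono_right (fun x => ?_) (fun x => Wm_nonneg _) (fun x => ?_) hWm hF2.1 hWp
    · by_cases hx : (∑ l ∈ S2, f l) x = 0
      · rw [hx]; exact Wp_nonneg _
      · rw [Wp_eq_one (loc2 x hx), val2]
        exact sum_tent_le S2 hm0 x
    · rcases le_or_gt 1 ‖((x : ℍ) : ℂ)‖ with h1 | h1
      · rw [Wm_eq_zero h1, mul_zero]
      · have h2 : (∑ l ∈ S2, f l) x = 0 := by
          by_contra h3
          have h4 := loc2 x h3
          linarith
        rw [h2, Wp_eq_zero h1.le]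
        ring
  have s3 := ofReal_four_bn_le (G := voronoiGraph A) (fun x : A => Wp x) (fun x : A => Wm x)
  rw [bn_comm] at s3
  refine le_trans (ENNReal.ofReal_le_ofReal ?_) s3
  have := sum_eq
  rw [this]
  linarith

end

end Pool.Agent.Y979.HM
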