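import Pool.Agent.Y979.HM.Net
import Pool.Agent.Y979.HV.Main

/-!
# Project HM: configurations, test functions, tiles, grids
-/

set_option autoImplicit false

open MeasureTheory UpperHalfPlane Pool.Agent.Y979.HV
open scoped ENNReal

namespace Pool.Agent.Y979.HM

noncomputable section

/-- The space of configurations (subsets of the hyperbolic plane) with the sigma-algebra that is
generated by the numbers of points in Borel sets. -/
def Conf : Type := Set ℍ

/-- a set as a configuration -/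
def mk (A : Set ℍ) : Conf := A

/-- a configuration as a set -/
def pts (A : Conf) : Set ℍ := A

theorem pts_mk (A : Set ℍ) : pts (mk A) = A := rfl

/-- the sigma-algebra generated by the numbers of points in Borel subsets of `Z` -/
@[instance_reducible]
def cs (Z : Set ℍ) : MeasurableSpace Conf :=
  ⨆ (B : Set ℍ) (_ : MeasurableSet B ∧ B ⊆ Z),
    MeasurableSpace.comap (fun A : Conf => (pts A ∩ B).encard) inferInstance

instance : MeasurableSpace Conf := cs Set.univ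

/-- a countable family of balls -/
def RB (q : ℕ × ℕ × ℕ) : Set ℍ :=
  Metric.ball (TopologicalSpace.denseSeq ℍ q.1) ((q.2.1 : ℝ) / (q.2.2 + 1))

/-- adjacency in terms of balls that contain exactly two points -/
def badj (A : Set ℍ) (x y : ℍ) : Prop :=
  x ≠ y ∧ ∃ q, x ∈ RB q ∧ y ∈ RB q ∧ (A ∩ RB q).encard = 2

/-- the Cayley transform, from the upper half plane to the unit disc -/
def cay (z : ℍ) : ℂ := ((z : ℂ) - Complex.I) / ((z : ℂ) + Complex.I)

/-- configurations which are locally finite and have finite chordal energy -/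
def Good (A : Set ℍ) : Prop :=
  LocFin A ∧ En (voronoiGraph A) (fun x => (cay x).re) < ⊤ ∧
    En (voronoiGraph A) (fun x => (cay x).im) < ⊤

/-- a bump at the real number `s`, defined with the pair `s`, `t` -/
def gen (s t r : ℝ) (z : ℍ) : ℝ := max 0 (1 - ‖(z : ℂ) - s‖ / (r * ‖(z : ℂ) - t‖))

/-- the tent of width `r` at the real number `s` -/
def tent (s r : ℝ) (z : ℍ) : ℝ := max 0 (1 - ‖(z : ℂ) - s‖ / r)

/-- the tent at infinity -/
def tinf (R : ℝ) (z : ℍ) : ℝ := max 0 (1 - R / ‖(z : ℂ)‖)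

/-- the positive part of the truncated logarithm -/
def Wp (z : ℍ) : ℝ := max 0 (min 1 (sc z))

/-- the negative part of the truncated logarithm -/
def Wm (z : ℍ) : ℝ := max 0 (min 1 (-sc z))

/-- the map `z ↦ 2 z` -/
def dil2 (z : ℍ) : ℍ := ⟨2 * (z : ℂ), by simpa using z.im_pos⟩

/-- the event that the normalised energy between the two ends of the imaginary axis is small along
a sequence of scales -/
def Ev (c : ℝ) : Set Conf :=
  {A | ∀ n : ℕ, ∃ r R : ℚ, 0 < r ∧ (r : ℝ) < 1 / (n + 1) ∧ (n : ℝ) + 1 < R ∧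
    ((R : ℝ) / r) * bn (voronoiGraph (pts A)) (fun x => tent 0 r x) (fun x => tinf R x) < c}

/-- the same for the geodesic from `s` to `t`, for one configuration -/
def EvP (c s t : ℝ) (A : Set ℍ) : Prop :=
  ∀ n : ℕ, ∃ r R : ℚ, 0 < r ∧ (r : ℝ) < 1 / (n + 1) ∧ (n : ℝ) + 1 < R ∧
    ((R : ℝ) / r) * bn (voronoiGraph A) (fun x => gen s t r x) (fun x => gen t s (1 / R) x) < c

/-- dyadic tiles -/
def tile (p : ℤ × ℤ) : Set ℍ :=
  {z | (p.2 : ℝ) * 2 ^ p.1 ≤ z.re ∧ z.re < (p.2 + 1) * 2 ^ p.1 ∧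
    (2 : ℝ) ^ p.1 ≤ z.im ∧ z.im < 2 ^ (p.1 + 1)}

/-- the centre of a tile -/
def ctr (p : ℤ × ℤ) : ℍ :=
  ⟨⟨((p.2 : ℝ) + 1 / 2) * 2 ^ p.1, 3 / 2 * 2 ^ p.1⟩, by
    show (0 : ℝ) < 3 / 2 * 2 ^ p.1
    positivity⟩

/-- there is an empty ball of radius `L - 6` in `Z` at distance at most `L + 3` from the tile -/
def Bad (Z : Set ℍ) (p : ℤ × ℤ) (L : ℕ) (A : Set ℍ) : Prop :=
  ∃ p' : ℤ × ℤ, dist (ctr p) (ctr p') ≤ L + 3 ∧ Metric.ball (ctr p') (L - 6) ⊆ Z ∧
    A ∩ Metric.ball (ctr p') (L - 6) = ∅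

/-- the tile sum that controls the energy of the points in `Z` -/
def Psi (Z : Set ℍ) (K : Set (ℤ × ℤ)) (A : Set ℍ) : ℝ≥0∞ :=
  ∑' p : K, ∑' L : ℕ, open Classical in
    if Bad Z p L A then
      ENNReal.ofReal ((4 : ℝ) ^ p.1.1 * Real.exp (4 * L)) *
        (((A ∩ (tile p ∩ Z)).encard : ℕ∞) : ℝ≥0∞) *
        (32 + (((A ∩ (Z ∩ Metric.closedBall (ctr p) (2 * L + 3))).encard : ℕ∞) : ℝ≥0∞))
    else 0

/-- the four rays of the grid -/
def row (κ : ℝ) (j : Fin 4) : ℝ := ![κ, Real.pi / 3, 2 * Real.pi / 3, Real.pi - κ] j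

/-- the small boxes of the grid in logarithmic polar coordinates -/
def gbox (κ η : ℝ) (k : ℤ) (j : Fin 4) : Set ℍ :=
  {z | |sc z - k * κ| < η ∧ |Complex.arg (z : ℂ) - row κ j| < η}

/-- the union of the boxes with `|k κ| ≤ 7 / 2` -/
def gboxes (κ η : ℝ) : Set ℍ := ⋃ (k : ℤ) (_ : |(k : ℝ) * κ| ≤ 7 / 2) (j : Fin 4), gbox κ η k j

/-- the low region -/
def Zl (κ : ℝ) : Set ℍ := {z | |sc z| < 4 ∧ z.im < Real.sin (κ / 2) * ‖(z : ℂ)‖}

/-- the high region -/
def Zh (κ : ℝ) : Set ℍ := {z | |sc z| < 4 ∧ Real.sin (κ / 2) * ‖(z : ℂ)‖ ≤ z.im}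

/-- In the high region there is exactly one point in every box of the grid, and there are no other
points. -/
def GridOK (κ η : ℝ) (A : Set ℍ) : Prop :=
  (∀ k : ℤ, |(k : ℝ) * κ| ≤ 7 / 2 → ∀ j : Fin 4, (A ∩ gbox κ η k j).encard = 1) ∧
    A ∩ (Zh κ \ gboxes κ η) = ∅

end

end Pool.Agent.Y979.HM
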