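import Pool.Agent.Y781.HM.G1

/-!
# Geometry of the grid, the centre of the ball is outside
-/

set_option autoImplicit false

open MeasureTheory UpperHalfPlane Filter Pool.Agent.Y979.HV
open scoped ENNReal Topology

namespace Pool.Agent.Y979.HM

open Pool.Agent.Y781.HM

theorem coef_sq_large {a b t₁ t₂ M : ℝ} (ha : |a| ≤ 1) (hb : 0 ≤ b) (hM : 3 / 2 ≤ M)
    (h1 : |t₁ - Real.pi / 3| < 1 / 1000000) (h2 : |t₂ - 2 * Real.pi / 3| < 1 / 1000000)
    (e1 : a * Real.cos t₁ + b * Real.sin t₁ ≤ M)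
    (e2 : a * Real.cos t₂ + b * Real.sin t₂ ≤ M) :
    a ^ 2 + b ^ 2 ≤ (6 / 5 * M) ^ 2 := by
  have c1 := (Real.abs_cos_sub_cos_le t₁ (Real.pi / 3)).trans h1.le
  have c2 := (Real.abs_cos_sub_cos_le t₂ (2 * Real.pi / 3)).trans h2.le
  have s1 := (Real.abs_sin_sub_sin_le t₁ (Real.pi / 3)).trans h1.le
  have s2 := (Real.abs_sin_sub_sin_le t₂ (2 * Real.pi / 3)).trans h2.le
  have e3 : Real.cos (2 * Real.pi / 3) = -(1 / 2) := by
    rw [show 2 * Real.pi / 3 = Real.pi - Real.pi / 3 by ring, Real.cos_pi_sub,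
      Real.cos_pi_div_three]
  have e4 : Real.sin (2 * Real.pi / 3) = √3 / 2 := by
    rw [show 2 * Real.pi / 3 = Real.pi - Real.pi / 3 by ring, Real.sin_pi_sub,
      Real.sin_pi_div_three]
  rw [Real.cos_pi_div_three] at c1
  rw [Real.sin_pi_div_three] at s1
  rw [e3] at c2
  rw [e4] at s2
  have h3 : (866 / 1000 : ℝ) + 1 / 100000 ≤ √3 / 2 := by
    have : (2 * (866 / 1000 + 1 / 100000) : ℝ) ≤ √3 := by
      refine Real.le_sqrt_of_sq_le ?_
      norm_num
    linarith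
  rw [abs_le] at c1 c2 s1 s2 ha
  have f1 : 866 / 1000 ≤ Real.sin t₁ := by linarith [s1.1]
  have f2 : 866 / 1000 ≤ Real.sin t₂ := by linarith [s2.1]
  have g1 : a / 2 - 1 / 1000000 ≤ a * Real.cos t₁ := by nlinarith [c1.1, c1.2]
  have g2 : -(a / 2) - 1 / 1000000 ≤ a * Real.cos t₂ := by nlinarith [c2.1, c2.2]
  have k1 : 866 / 1000 * b + a / 2 ≤ M + 1 / 1000000 := by nlinarith
  have k2 : 866 / 1000 * b - a / 2 ≤ M + 1 / 1000000 := by nlinarith
  -- reduce to |a|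
  have key : ∀ u : ℝ, 0 ≤ u → u ≤ 1 → 866 / 1000 * b + u / 2 ≤ M + 1 / 1000000 →
      u ^ 2 + b ^ 2 ≤ (6 / 5 * M) ^ 2 := by
    intro u hu0 hu1 hk
    have h4 : (866 / 1000 * b) ^ 2 ≤ (M + 1 / 1000000 - u / 2) ^ 2 :=
      pow_le_pow_left₀ (by positivity) (by linarith) 2
    nlinarith [mul_nonneg hu0 (by linarith : 0 ≤ M), mul_nonneg hu0 (by linarith : 0 ≤ 1 - u)]
  rcases le_total 0 a with h | h
  · exact key a h ha.2 k1
  · have := key (-a) (by linarith) (by linarith) (by linarith)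
    rwa [neg_sq] at this

theorem cosh_add_large {v : ℝ} (hv : 1 ≤ v) : 6 / 5 * Real.cosh v ≤ Real.cosh (v + 3 / 10) := by
  have h1 : 3 / 2 ≤ Real.cosh v := by
    have := half_sq_le v
    nlinarith
  have h2 : 7 / 10 * Real.cosh v ≤ Real.sinh v := by
    have h3 := Real.cosh_sq v
    have h4 : 0 ≤ Real.sinh v := Real.sinh_nonneg_iff.2 (by linarith)
    nlinarith
  have h3 : 1 + (3 / 10) ^ 2 / 2 ≤ Real.cosh (3 / 10) := by
    have := half_sq_le (3 / 10)
    linarith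
  have h4 : (3 / 10 : ℝ) ≤ Real.sinh (3 / 10) := Real.self_le_sinh_iff.mpr (by norm_num)
  rw [Real.cosh_add]
  nlinarith

theorem g2_core {κ η : ℝ} (hκ : 0 < κ) (hκ1 : κ ≤ 1 / 100) (hη1 : η ≤ κ ^ 3)
    {A : Set ℍ} (hA : GridOK κ η A) {c : ℍ} {ρ : ℝ} (hemp : A ∩ Metric.ball c ρ = ∅) {τ : ℝ}
    (hτ : |τ| ≤ 2) (hc : 1 ≤ |sc c - τ|) {x : ℍ} (hx : dist c x = ρ) :
    |sc x - sc c| ≤ |sc c - τ| + κ / 2 + η + 3 / 10 ∨ η ≤ 0 := by
  by_cases hη : 0 < η
  swap
  · exact Or.inr (not_lt.mp hη)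
  left
  have hρ : 0 ≤ ρ := hx ▸ dist_nonneg
  obtain ⟨hη2, hη3, hη4⟩ := eta_le hκ hκ1 hη1
  set a := Real.cos (ar c) with ha
  set b := Real.cosh ρ * Real.sin (ar c) with hb
  have ha1 : |a| ≤ 1 := Real.abs_cos_le_one _
  have hb0 : 0 ≤ b := mul_nonneg (Real.cosh_pos _).le (sin_ar_pos c).le
  have fA : ∀ z ∈ A, a * Real.cos (ar z) + b * Real.sin (ar z) ≤ Real.cosh (sc z - sc c) := by
    intro z hz
    have h1 : ρ ≤ dist c z := by
      by_contra h
      push Not at h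
      have : z ∈ A ∩ Metric.ball c ρ := ⟨hz, by rw [Metric.mem_ball, dist_comm]; exact h⟩
      rw [hemp] at this
      exact this
    have h2 : Real.cosh ρ ≤ Real.cosh (dist c z) := by
      rw [Real.cosh_le_cosh, abs_of_nonneg hρ, abs_of_nonneg dist_nonneg]
      exact h1
    rw [cosh_sc c z]
    have := mul_le_mul_of_nonneg_right (mul_le_mul_of_nonneg_right h2 (sin_ar_pos c).le)
      (sin_ar_pos z).le
    linarith
  have fB : Real.cosh (sc x - sc c) ≤ a * Real.cos (ar x) + b * Real.sin (ar x) := by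
    rw [cosh_sc c x, hx]
  set k : ℤ := round (τ / κ) with hk
  have hk1 : |(k : ℝ) * κ - τ| ≤ κ / 2 := by
    have h1 := abs_sub_round (τ / κ)
    have h2 : (k : ℝ) * κ - τ = -((τ / κ - round (τ / κ)) * κ) := by
      rw [hk]
      field_simp
      ring
    rw [h2, abs_neg, abs_mul, abs_of_pos hκ]
    nlinarith
  have hk2 : |(k : ℝ) * κ| ≤ 7 / 2 := by
    have h1 := abs_le.1 hk1
    have h2 := abs_le.1 hτ
    rw [abs_le]
    constructor
    · linarith [h1.1, h2.1]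
    · linarith [h1.2, h2.2]
  set v := |sc c - τ| + κ / 2 + η with hv
  have hv1 : 1 ≤ v := by linarith
  have hgr : ∀ j : Fin 4, ∃ t : ℝ, |t - row κ j| < η ∧
      a * Real.cos t + b * Real.sin t ≤ Real.cosh v := by
    intro j
    obtain ⟨z, hzA, hz1, hz2⟩ := exists_grid hA k hk2 j
    refine ⟨ar z, hz2, (fA z hzA).trans ?_⟩
    rw [Real.cosh_le_cosh, abs_of_nonneg (by linarith : 0 ≤ v)]
    have h1 : sc z - sc c = (sc z - k * κ) + ((k : ℝ) * κ - τ) + -(sc c - τ) := by ring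
    rw [h1]
    refine (abs_add_three _ _ _).trans ?_
    rw [abs_neg, hv]
    linarith
  obtain ⟨t₁, ht₁, e₁⟩ := hgr 1
  obtain ⟨t₂, ht₂, e₂⟩ := hgr 2
  have r1 : row κ 1 = Real.pi / 3 := rfl
  have r2 : row κ 2 = 2 * Real.pi / 3 := rfl
  rw [r1] at ht₁
  rw [r2] at ht₂
  have hM : 3 / 2 ≤ Real.cosh v := by
    have := half_sq_le v
    nlinarith
  have hq := coef_sq_large ha1 hb0 hM (ht₁.trans_le hη4) (ht₂.trans_le hη4) e₁ e₂
  have hlin : a * Real.cos (ar x) + b * Real.sin (ar x) ≤ 6 / 5 * Real.cosh v := by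
    refine le_of_sq_le_sq ?_ (by linarith)
    have h1 := Real.sin_sq_add_cos_sq (ar x)
    nlinarith [sq_nonneg (a * Real.sin (ar x) - b * Real.cos (ar x))]
  have h1 := fB.trans (hlin.trans (cosh_add_large hv1))
  rw [Real.cosh_le_cosh, abs_of_nonneg (by linarith : 0 ≤ v + 3 / 10)] at h1
  exact h1

theorem g2 : S_G2 := by
  intro κ η hκ hκ1 hη hη1 A hA c ρ hemp x _ hx
  obtain ⟨hη2, hη3, hη4⟩ := eta_le hκ hκ1 hη1
  constructor
  · intro hc
    have h1 := g2_core hκ hκ1 hη1 hA hemp (τ := 2) (by norm_num)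
      (by rw [abs_of_pos (by linarith)]; linarith) hx
    rcases h1 with h1 | h1
    · rw [abs_of_pos (by linarith : 0 < sc c - 2)] at h1
      have h2 := (abs_le.1 h1).1
      linarith
    · linarith
  · intro hc
    have h1 := g2_core hκ hκ1 hη1 hA hemp (τ := -2) (by norm_num)
      (by rw [abs_of_neg (by linarith)]; linarith) hx
    rcases h1 with h1 | h1
    · rw [abs_of_neg (by linarith : sc c - -2 < 0)] at h1
      have h2 := (abs_le.1 h1).2
      linarith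
    · linarith

end Pool.Agent.Y979.HM
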