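import Pool.Agent.Y979.HV.Main
import Pool.Agent.Y979.HM.Meas
import Pool.Agent.Y563.HM.Tv

/-!
# The Poisson process has infinitely many points
-/

set_option autoImplicit false

open MeasureTheory UpperHalfPlane Filter Pool.Agent.Y979.HV
open scoped ENNReal Topology

namespace Pool.Agent.Y979.HM

noncomputable section

variable {Ω : Type*} [MeasurableSpace Ω] {P : Measure Ω} [IsProbabilityMeasure P] {lam : ℝ}
  {Q : Ω → Set ℍ}

/-- there are annuli of large area -/
theorem exists_annulus (htv : S_TV) (n : ℕ) (v : ℝ) : ∃ r : ℝ,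
    v ≤ (volume (Metric.ball I r \ Metric.closedBall I (n : ℝ))).toReal ∧
    volume (Metric.ball I r \ Metric.closedBall I (n : ℝ)) ≠ ⊤ := by
  obtain ⟨h1, h2, _⟩ := htv
  set M : ℝ := |v| + 2 * Real.exp (2 * n) with hM
  have hM0 : 0 ≤ M := by positivity
  obtain ⟨r, hr, hr2⟩ : ∃ r : ℝ, 2 ≤ r ∧ M ≤ Real.exp (r / 2) / 2 := by
    refine ⟨max 2 (4 * M), le_max_left _ _, ?_⟩
    have a1 := Real.add_one_le_exp (max 2 (4 * M) / 2)
    have a2 := le_max_right 2 (4 * M)
    linarith
  have e1 : volume (Metric.ball I r) ≠ ⊤ :=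
    ((measure_mono Metric.ball_subset_closedBall).trans_lt
      ((h1 I r (by linarith)).trans_lt ENNReal.ofReal_lt_top)).ne
  have e2 : volume (Metric.ball I r \ Metric.closedBall I (n : ℝ)) ≠ ⊤ :=
    (lt_of_le_of_lt (measure_mono Set.diff_subset) (lt_top_iff_ne_top.mpr e1)).ne
  refine ⟨r, ?_, e2⟩
  have e3 : volume (Metric.ball I r) ≤
      volume (Metric.ball I r \ Metric.closedBall I (n : ℝ)) +
        volume (Metric.closedBall I (n : ℝ)) := by
    refine (measure_mono ?_).trans (measure_union_le _ _)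
    intro z hz
    by_cases hzn : z ∈ Metric.closedBall I (n : ℝ)
    · exact Or.inr hzn
    · exact Or.inl ⟨hz, hzn⟩
  have e4 := (h2 I r hr).trans (e3.trans (add_le_add_right (h1 I n (by positivity)) _))
  rw [← ENNReal.ofReal_toReal e2, ← ENNReal.ofReal_add ENNReal.toReal_nonneg (by positivity)] at e4
  have e5 := (ENNReal.ofReal_le_ofReal_iff (by positivity)).mp e4
  have := le_abs_self v
  linarith

theorem ae_infinite (htv : S_TV) (hQ : IsPoissonProcess P lam Q) (hlam : 0 < lam) :
    ∀ᵐ ω ∂P, (Q ω).Infinite := by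
  have key : ∀ n : ℕ, P {ω | Q ω ⊆ Metric.closedBall I (n : ℝ)} = 0 := by
    intro n
    refine le_antisymm ?_ zero_le
    have h1 : ∀ m : ℕ, P {ω | Q ω ⊆ Metric.closedBall I (n : ℝ)} ≤
        ENNReal.ofReal (Real.exp (-(lam * m))) := by
      intro m
      obtain ⟨r, hr1, hr2⟩ := exists_annulus htv n m
      have hB : MeasurableSet (Metric.ball I r \ Metric.closedBall I (n : ℝ)) :=
        measurableSet_ball.diff measurableSet_closedBall
      have h2 : {ω | Q ω ⊆ Metric.closedBall I (n : ℝ)} ⊆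
          {ω | Q ω ∩ (Metric.ball I r \ Metric.closedBall I (n : ℝ)) = ∅} := by
        intro ω hω
        show _ ∩ _ = _
        rw [Set.eq_empty_iff_forall_notMem]
        rintro z ⟨hz, _, hz2⟩
        exact hz2 (hω hz)
      refine (measure_mono h2).trans ?_
      rw [hQ.void_prob hB hr2]
      refine ENNReal.ofReal_le_ofReal (Real.exp_le_exp.mpr ?_)
      have := mul_le_mul_of_nonneg_left hr1 hlam.le
      linarith
    have h2 : Tendsto (fun m : ℕ => ENNReal.ofReal (Real.exp (-(lam * m)))) atTop (𝓝 0) := by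
      have h3 : Tendsto (fun m : ℕ => Real.exp (-(lam * m))) atTop (𝓝 0) := by
        refine Real.tendsto_exp_atBot.comp ?_
        refine tendsto_neg_atTop_atBot.comp ?_
        exact Tendsto.const_mul_atTop hlam tendsto_natCast_atTop_atTop
      have h4 := ENNReal.tendsto_ofReal h3
      rwa [ENNReal.ofReal_zero] at h4
    exact ge_of_tendsto' h2 h1
  have h2 : ∀ᵐ ω ∂P, ∀ n : ℕ, ¬ (Q ω ⊆ Metric.closedBall I (n : ℝ)) := by
    rw [ae_all_iff]
    intro n
    rw [ae_iff]
    simpa using key n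
  filter_upwards [h2] with ω hω hfin
  obtain ⟨R, hR⟩ := hfin.isBounded.subset_closedBall I
  obtain ⟨n, hn⟩ := exists_nat_ge R
  exact hω n (hR.trans (Metric.closedBall_subset_closedBall hn))

end

end Pool.Agent.Y979.HM
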