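import Pool.Agent.Y979.HM.Meas

/-!
# Low energy has positive probability
-/

set_option autoImplicit false

open MeasureTheory UpperHalfPlane Filter Pool.Agent.Y979.HV
open scoped ENNReal Topology

namespace Pool.Agent.Y979.HM

universe u

theorem low (hge : S_GE) (hgk : S_GK) (hgp : S_GP.{u}) (hte : S_TE.{u}) (htm : S_TM)
    (hind : S_IND.{u}) : S_LOW.{u} := by
  intro Ω _ P _ lam Q hQ hlam κ₀ hκ₀ hae
  obtain ⟨C0, hC0, hge⟩ := hge
  obtain ⟨CK, hCK, hgk⟩ := hgk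
  obtain ⟨CE, hCE, hte⟩ := hte lam hlam
  set K : ℝ := (CE * CK).toReal with hK
  have hK0 : 0 ≤ K := ENNReal.toReal_nonneg
  have hKeq : CE * CK = ENNReal.ofReal K := by
    rw [hK, ENNReal.ofReal_toReal (ENNReal.mul_ne_top hCE.ne hCK.ne)]
  set κ : ℝ := min (1 / 100) (κ₀ / (4 * C0 * (K + 1))) with hκdef
  have hκ : 0 < κ := lt_min (by norm_num) (by positivity)
  have hκ1 : κ ≤ 1 / 100 := min_le_left _ _
  have hκ2 : κ * (4 * C0 * (K + 1)) ≤ κ₀ := by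
    have := min_le_right (1 / 100) (κ₀ / (4 * C0 * (K + 1)))
    rwa [← hκdef, le_div_iff₀ (by positivity)] at this
  have a1 : C0 * κ < κ₀ / 2 := by nlinarith [mul_pos hC0 hκ, mul_nonneg (mul_pos hC0 hκ).le hK0]
  have a2 : K * κ < κ₀ / (2 * C0) := by
    rw [lt_div_iff₀ (by positivity)]
    nlinarith [mul_pos hC0 hκ, mul_nonneg (mul_pos hC0 hκ).le hK0]
  have hη : 0 < κ ^ 3 := by positivity
  obtain ⟨hZl, hZh, hGm, hGP⟩ := hgp P lam Q hQ hlam κ (κ ^ 3) hκ hκ1 hη le_rfl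
  set KK : Set (ℤ × ℤ) := {p | (tile p ∩ Zl κ).Nonempty} with hKK
  set t : ℝ≥0∞ := ENNReal.ofReal (κ₀ / (2 * C0)) with ht
  set S1 : Set Ω := {ω | Psi (Zl κ) KK (Q ω) < t} with hS1
  set S2 : Set Ω := {ω | GridOK κ (κ ^ 3) (Q ω)} with hS2
  have hint : ∫⁻ ω, Psi (Zl κ) KK (Q ω) ∂P < t := by
    refine lt_of_le_of_lt ((hte P Q hQ (Zl κ) KK hZl).trans
      (mul_le_mul_right (hgk κ hκ hκ1) CE)) ?_
    rw [← mul_assoc, hKeq, ← ENNReal.ofReal_mul hK0, ht]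
    exact (ENNReal.ofReal_lt_ofReal_iff (by positivity)).mpr a2
  have hS1P : P S1 ≠ 0 := by
    intro h0
    have h1 : ∀ᵐ ω ∂P, t ≤ Psi (Zl κ) KK (Q ω) := by
      rw [ae_iff]
      simp only [not_le]
      exact h0
    have h2 := lintegral_mono_ae h1
    rw [lintegral_const, measure_univ, mul_one] at h2
    exact absurd hint (not_lt.mpr h2)
  have hS1m : MeasurableSet[(cs (Zl κ)).comap fun ω => mk (Q ω)] S1 := by
    refine ⟨{A : Conf | Psi (Zl κ) KK (pts A) < t}, ?_, rfl⟩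
    exact (htm (Zl κ) KK hZl) measurableSet_Iio
  have hdis : Disjoint (Zl κ) (Zh κ) := by
    rw [Set.disjoint_left]
    intro z h1 h2
    exact absurd h1.2 (not_lt.mpr h2.2)
  have hI := hind P lam Q hQ (Zl κ) (Zh κ) hZl hZh hdis
  rw [ProbabilityTheory.Indep_iff] at hI
  have h12 := hI S1 S2 hS1m hGm
  have hpos : P (S1 ∩ S2) ≠ 0 := by
    rw [h12]
    exact mul_ne_zero hS1P hGP.ne'
  apply hpos
  have hlf := ae_locFin hQ hlam
  have hboth := hlf.and hae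
  rw [ae_iff] at hboth
  refine measure_mono_null (fun ω hω => ?_) hboth
  rintro ⟨h1, h2⟩
  have h3 := hge κ (κ ^ 3) hκ hκ1 hη le_rfl (Q ω) h1 hω.2
  have h4 : ENNReal.ofReal C0 * Psi (Zl κ) KK (Q ω) ≤ ENNReal.ofReal (κ₀ / 2) := by
    calc ENNReal.ofReal C0 * Psi (Zl κ) KK (Q ω) ≤ ENNReal.ofReal C0 * t := by
          gcongr
          exact le_of_lt hω.1
      _ = ENNReal.ofReal (κ₀ / 2) := by
          rw [ht, ← ENNReal.ofReal_mul hC0.le]
          congr 1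
          field_simp
  have h5 : ENNReal.ofReal (C0 * κ) < ENNReal.ofReal (κ₀ / 2) :=
    (ENNReal.ofReal_lt_ofReal_iff (by positivity)).mpr a1
  have h6 : ENNReal.ofReal (C0 * κ) + ENNReal.ofReal C0 * Psi (Zl κ) KK (Q ω) <
      ENNReal.ofReal (κ₀ / 2) + ENNReal.ofReal (κ₀ / 2) :=
    ENNReal.add_lt_add_of_lt_of_le (ne_top_of_le_ne_top ENNReal.ofReal_ne_top h4) h5 h4
  rw [← ENNReal.ofReal_add (by positivity) (by positivity), add_halves] at h6
  exact absurd (h2.trans h3) (not_le.mpr h6)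

end Pool.Agent.Y979.HM
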