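import Pool.Agent.Y979.HM.Asm
import Pool.Agent.Y979.HM.Inf
import Pool.Agent.Y979.HM.Ce
import Pool.Agent.Y979.HM.G2
import Pool.Agent.Y979.HM.Low
import Pool.Agent.Y306.HM.Min
import Pool.Agent.Y306.HM.NetB
import Pool.Agent.Y306.HM.Adj
import Pool.Agent.Y306.HM.Mob
import Pool.Agent.Y306.HM.Lip
import Pool.Agent.Y306.HM.Td
import Pool.Agent.Y202.HM.Key
import Pool.Agent.Y202.HM.Law
import Pool.Agent.Y202.HM.Tm
import Pool.Agent.Y202.HM.Gp
import Pool.Agent.Y302.HM.Exit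
import Pool.Agent.Y302.HM.Men
import Pool.Agent.Y302.HM.Mqn
import Pool.Agent.Y302.HM.Zo
import Pool.Agent.Y563.HM.Tv
import Pool.Agent.Y367.HM.Te
import Pool.Agent.Y781.HM.G1
import Pool.Agent.Y781.HM.GE
import Pool.Agent.Y322.HM.Diff
import Pool.Agent.Y322.HM.Circ

/-!
# Harmonic measure at infinity of the hyperbolic Poisson-Voronoi graph is singular
-/

set_option autoImplicit false

open MeasureTheory UpperHalfPlane Filter Pool.Agent.Y979.HV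
open scoped ENNReal Topology

namespace Pool.Agent.Y979.HM

universe u

theorem men_ : S_MEN.{u} := Pool.Agent.Y302.HM.men Pool.Agent.Y306.HM.adj1 Pool.Agent.Y306.HM.adj2

theorem net_ : S_NET := Pool.Agent.Y306.HM.net Pool.Agent.Y306.HM.min_
  (Pool.Agent.Y202.HM.key Pool.Agent.Y306.HM.min_) Pool.Agent.Y302.HM.exit

theorem final {Ω : Type u} [MeasurableSpace Ω] (P : Measure Ω)
    [IsProbabilityMeasure P] (lam : ℝ) (hlam : 0 < lam) (Q : Ω → Set ℍ)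
    (hQ : IsPoissonProcess P lam Q) :
    ∀ᵐ ω ∂P, (Q ω).Infinite ∧ (voronoiGraph (Q ω)).Connected ∧ LF (voronoiGraph (Q ω)) ∧
      ∀ (x : Q ω) {Ω' : Type} [MeasurableSpace Ω'] (P' : Measure Ω') [IsProbabilityMeasure P']
        (X : ℕ → Ω' → Q ω), IsSRW P' (voronoiGraph (Q ω)) x X →
        ∃ ν : Measure ℂ, IsHarmonicMeasure P' X ν ∧ ν ⟂ₘ arcLength := by
  have hce : S_CE.{u} := ce Pool.Agent.Y306.HM.mob Pool.Agent.Y306.HM.td
    (Pool.Agent.Y367.HM.te Pool.Agent.Y563.HM.Tv.tv) Pool.Agent.Y202.HM.tm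
  have hge := Pool.Agent.Y781.HM.ge Pool.Agent.Y781.HM.g1 g2 Pool.Agent.Y306.HM.td
  have hlow : S_LOW.{u} := low hge gk Pool.Agent.Y202.HM.gp
    (Pool.Agent.Y367.HM.te Pool.Agent.Y563.HM.Tv.tv) Pool.Agent.Y202.HM.tm Pool.Agent.Y202.HM.ind
  have h := main Pool.Agent.Y306.HM.mob men_ (Pool.Agent.Y302.HM.mqn men_)
    (Pool.Agent.Y302.HM.mqn men_) Pool.Agent.Y306.HM.lip Pool.Agent.Y202.HM.law
    (Pool.Agent.Y302.HM.zo Pool.Agent.Y202.HM.ind Pool.Agent.Y202.HM.law Pool.Agent.Y306.HM.mob)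
    hce hlow (Pool.Agent.Y322.HM.diff_ net_ Pool.Agent.Y306.HM.lip) Pool.Agent.Y322.HM.circ
    P lam hlam Q hQ
  filter_upwards [ae_infinite Pool.Agent.Y563.HM.Tv.tv hQ hlam, ae_connected hQ hlam, h]
    with ω h1 h2 h3
  exact ⟨h1, h2.1, h3⟩

end Pool.Agent.Y979.HM
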