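import Pool.Agent.Y979.HM.Stm
import Pool.Agent.Y979.HM.Basic

/-!
# Isometries; good configurations
-/

set_option autoImplicit false

open MeasureTheory UpperHalfPlane Filter Pool.Agent.Y979.HV
open scoped ENNReal Topology

namespace Pool.Agent.Y979.HM

noncomputable section

theorem mem_cell_image {e : ℍ ≃ ℍ} (he : Isometry e) {A : Set ℍ} {x z : ℍ} :
    e z ∈ cell (e '' A) (e x) ↔ z ∈ cell A x := by
  constructor
  · intro h y hy
    have := h (e y) (Set.mem_image_of_mem _ hy)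
    rwa [he.dist_eq, he.dist_eq] at this
  · rintro h _ ⟨y, hy, rfl⟩
    rw [he.dist_eq, he.dist_eq]
    exact h y hy

theorem adj_image {e : ℍ ≃ ℍ} (he : Isometry e) (A : Set ℍ) (x y : A) :
    (voronoiGraph A).Adj x y ↔ (voronoiGraph (e '' A)).Adj (e.image A x) (e.image A y) := by
  constructor
  · rintro ⟨hxy, z, w, hzw, h⟩
    refine ⟨fun h' => hxy ((e.image A).injective h'), e z, e w, fun h' => hzw (e.injective h'), ?_⟩
    intro u hu
    obtain ⟨u', rfl⟩ := e.surjective u
    rw [he.dist_eq, he.dist_eq, he.dist_eq] at hu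
    exact ⟨(mem_cell_image he).2 (h u' hu).1, (mem_cell_image he).2 (h u' hu).2⟩
  · rintro ⟨hxy, z, w, hzw, h⟩
    obtain ⟨z', rfl⟩ := e.surjective z
    obtain ⟨w', rfl⟩ := e.surjective w
    refine ⟨fun h' => hxy (by rw [h']), z', w', fun h' => hzw (by rw [h']), ?_⟩
    intro u hu
    have := h (e u) (by rw [he.dist_eq, he.dist_eq, he.dist_eq]; exact hu)
    exact ⟨(mem_cell_image he).1 this.1, (mem_cell_image he).1 this.2⟩

theorem En_image {e : ℍ ≃ ℍ} (he : Isometry e) (A : Set ℍ) (F : ℍ → ℝ) :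
    En (voronoiGraph (e '' A)) (fun x => F x) = En (voronoiGraph A) (fun x => F (e x)) :=
  En_iso (e.image A) (adj_image he A) _

theorem Qn_image {e : ℍ ≃ ℍ} (he : Isometry e) (A : Set ℍ) (F : ℍ → ℝ) :
    Qn (voronoiGraph (e '' A)) (fun x => F x) = Qn (voronoiGraph A) (fun x => F (e x)) :=
  Qn_iso (e.image A) (adj_image he A) _

theorem bn_image {e : ℍ ≃ ℍ} (he : Isometry e) (A : Set ℍ) (F H : ℍ → ℝ) :
    bn (voronoiGraph (e '' A)) (fun x => F x) (fun x => H x) =
      bn (voronoiGraph A) (fun x => F (e x)) (fun x => H (e x)) :=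
  bn_iso (e.image A) (adj_image he A) _ _

theorem locFin_image {e : ℍ ≃ ℍ} (he : Isometry e) {A : Set ℍ} (hA : LocFin A) :
    LocFin (e '' A) := by
  intro z R
  obtain ⟨z', rfl⟩ := e.surjective z
  refine ((hA z' R).image e).subset ?_
  rintro _ ⟨⟨y, hy, rfl⟩, h⟩
  refine ⟨y, ⟨hy, ?_⟩, rfl⟩
  rw [Metric.mem_closedBall, he.dist_eq] at h
  exact h

theorem isPoisson_image {Ω : Type*} [MeasurableSpace Ω] {P : Measure Ω} {lam : ℝ}
    {Q : Ω → Set ℍ} (hQ : IsPoissonProcess P lam Q) (e : ℍ ≃ᵐ ℍ)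
    (he : MeasurePreserving e volume volume) : IsPoissonProcess P lam (fun ω => e '' Q ω) := by
  have key : ∀ (A B : Set ℍ), (e '' A ∩ B).encard = (A ∩ e ⁻¹' B).encard := by
    intro A B
    rw [← Set.image_inter_preimage, e.injective.encard_image]
  refine ⟨fun B hB => ?_, fun B hB hv k => ?_, fun m B hB hd => ?_⟩
  · simp_rw [key]
    exact hQ.measurable_count _ (e.measurable hB)
  · simp_rw [key]
    have h := hQ.law_count _ (e.measurable hB)
      (by rw [he.measure_preimage hB.nullMeasurableSet]; exact hv) k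
    rw [he.measure_preimage hB.nullMeasurableSet] at h
    exact h
  · simp_rw [key]
    exact hQ.indep_count m (fun i => e ⁻¹' B i) (fun i => e.measurable (hB i))
      fun i j hij => (hd hij).preimage _

/-! ## Good configurations -/

theorem norm_cay_sub_sq (z w : ℍ) : ‖cay z - cay w‖ ^ 2 =
    ((cay z).re - (cay w).re) ^ 2 + ((cay z).im - (cay w).im) ^ 2 := by
  rw [← Complex.normSq_eq_norm_sq, Complex.normSq_apply]
  simp only [Complex.sub_re, Complex.sub_im]
  ring

theorem En_lt_of_lip {A : Set ℍ} (hA : Good A) {F : ℍ → ℝ} {L : ℝ}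
    (hF : ∀ z w : ℍ, |F z - F w| ≤ L * ‖cay z - cay w‖) :
    En (voronoiGraph A) (fun x => F x) < ⊤ := by
  have h1 : En (voronoiGraph A) (fun x => F x) ≤ ENNReal.ofReal (L ^ 2) *
      (En (voronoiGraph A) (fun x => (cay x).re) + En (voronoiGraph A) (fun x => (cay x).im)) := by
    unfold En
    rw [← ENNReal.tsum_add, ← ENNReal.tsum_mul_left]
    refine ENNReal.tsum_le_tsum fun p => ?_
    split_ifs with hp
    · rw [← ENNReal.ofReal_add (sq_nonneg _) (sq_nonneg _), ← norm_cay_sub_sq,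
        ← ENNReal.ofReal_mul (sq_nonneg L), ← mul_pow]
      refine ENNReal.ofReal_le_ofReal ?_
      rw [← sq_abs]
      exact pow_le_pow_left₀ (abs_nonneg _) (hF _ _) 2
    · simp
  refine h1.trans_lt (ENNReal.mul_lt_top ENNReal.ofReal_lt_top ?_)
  exact ENNReal.add_lt_top.mpr ⟨hA.2.1, hA.2.2⟩

theorem norm_add_I_pos (z : ℍ) : 0 < ‖(z : ℂ) + Complex.I‖ := by
  rw [norm_pos_iff]
  intro h
  have h1 := congrArg Complex.im h
  simp only [Complex.add_im, UpperHalfPlane.coe_im, Complex.I_im, Complex.zero_im] at h1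
  linarith [z.im_pos]

theorem norm_cay_sub (z w : ℍ) : ‖cay z - cay w‖ =
    2 * ‖(z : ℂ) - w‖ / (‖(z : ℂ) + Complex.I‖ * ‖(w : ℂ) + Complex.I‖) := by
  have hz : (z : ℂ) + Complex.I ≠ 0 := norm_pos_iff.mp (norm_add_I_pos z)
  have hw : (w : ℂ) + Complex.I ≠ 0 := norm_pos_iff.mp (norm_add_I_pos w)
  have e1 : cay z - cay w = 2 * Complex.I * ((z : ℂ) - w) /
      (((z : ℂ) + Complex.I) * ((w : ℂ) + Complex.I)) := by
    unfold cay
    field_simp
    ring
  rw [e1, norm_div, norm_mul, norm_mul, norm_mul]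
  simp

/-- far points are separated in the chordal metric -/
theorem cay_far (x : ℍ) : ∃ c : ℝ, 0 < c ∧ ∀ y : ℍ, 1 ≤ dist x y → c ≤ ‖cay x - cay y‖ := by
  have hx := norm_add_I_pos x
  have him := x.im_pos
  set N := ‖(x : ℂ)‖ with hN
  have hN0 : 0 ≤ N := norm_nonneg _
  refine ⟨min (1 / ‖(x : ℂ) + Complex.I‖)
    (x.im / (‖(x : ℂ) + Complex.I‖ * (2 * N + 2))), by positivity, fun y hy => ?_⟩
  have hy0 := norm_add_I_pos y
  have hyI : ‖(y : ℂ) + Complex.I‖ ≤ ‖(y : ℂ)‖ + 1 := by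
    refine (norm_add_le _ _).trans ?_
    simp
  rw [norm_cay_sub]
  rcases le_or_gt (2 * N + 1) ‖(y : ℂ)‖ with h | h
  · refine (min_le_left _ _).trans ?_
    rw [div_le_div_iff₀ hx (by positivity)]
    have h1 : ‖(y : ℂ)‖ - N ≤ ‖(x : ℂ) - y‖ := by
      rw [norm_sub_rev]
      exact norm_sub_norm_le _ _
    have h2 : ‖(y : ℂ) + Complex.I‖ ≤ 2 * ‖(x : ℂ) - y‖ := by linarith
    nlinarith
  · refine (min_le_right _ _).trans ?_
    have h3 : x.im / 2 < ‖(x : ℂ) - y‖ := by
      by_contra hcon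
      rw [not_lt] at hcon
      have h4 := UpperHalfPlane.cosh_dist x y
      have h5 : x.im / 2 ≤ y.im := by
        have := Complex.abs_im_le_norm ((x : ℂ) - y)
        rw [Complex.sub_im, UpperHalfPlane.coe_im, UpperHalfPlane.coe_im] at this
        have := (abs_le.mp this).2
        linarith
      have h6 : Real.cosh (dist x y) ≤ 1 + 1 / 4 := by
        rw [h4]
        have h7 : dist (x : ℂ) (y : ℂ) ^ 2 ≤ (x.im / 2) ^ 2 := by
          rw [dist_eq_norm]
          exact pow_le_pow_left₀ (norm_nonneg _) hcon 2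
        have h8 : dist (x : ℂ) (y : ℂ) ^ 2 / (2 * x.im * y.im) ≤ 1 / 4 := by
          rw [div_le_div_iff₀ (by have := y.im_pos; positivity) (by norm_num)]
          nlinarith
        linarith
      have h9 : Real.cosh 1 ≤ Real.cosh (dist x y) := by
        rw [Real.cosh_le_cosh, abs_of_nonneg zero_le_one, abs_of_nonneg dist_nonneg]
        exact hy
      have h10 : 1 + 1 ^ 2 / 2 ≤ Real.cosh 1 := by
        have := half_sq_le_cosh 1
        linarith
      linarith
    rw [div_le_div_iff₀ (by positivity) (by positivity)]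
    have h4 : ‖(y : ℂ) + Complex.I‖ ≤ 2 * N + 2 := by linarith
    have h5 : 0 < ‖(x : ℂ) + Complex.I‖ := hx
    calc x.im * (‖(x : ℂ) + Complex.I‖ * ‖(y : ℂ) + Complex.I‖)
        ≤ (2 * ‖(x : ℂ) - y‖) * (‖(x : ℂ) + Complex.I‖ * ‖(y : ℂ) + Complex.I‖) := by
          gcongr; linarith
      _ ≤ (2 * ‖(x : ℂ) - y‖) * (‖(x : ℂ) + Complex.I‖ * (2 * N + 2)) := by gcongr

/-- in a good configuration all degrees are finite -/
theorem Good.lf {A : Set ℍ} (hA : Good A) : LF (voronoiGraph A) := by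
  intro x
  by_contra hinf
  have hinf' : ((voronoiGraph A).neighborSet x).Infinite := hinf
  obtain ⟨c, hc, hfar⟩ := cay_far x
  set S : Set A := {y | (voronoiGraph A).Adj x y ∧ 1 ≤ dist (x : ℍ) y} with hS
  have hSinf : S.Infinite := by
    intro hfin
    apply hinf'
    have h1 : (A ∩ Metric.closedBall (x : ℍ) 1).Finite := hA.1 x 1
    have h2 : ({y : A | (y : ℍ) ∈ Metric.closedBall (x : ℍ) 1}).Finite := by
      refine Set.Finite.of_finite_image (f := Subtype.val) (h1.subset ?_) Subtype.val_injective.injOn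
      rintro _ ⟨y, hy, rfl⟩
      exact ⟨y.2, hy⟩
    refine (hfin.union h2).subset fun y hy => ?_
    by_cases h3 : 1 ≤ dist (x : ℍ) y
    · exact Or.inl ⟨hy, h3⟩
    · right
      show dist (y : ℍ) (x : ℍ) ≤ 1
      rw [dist_comm]
      exact (not_le.mp h3).le
  have hsum : En (voronoiGraph A) (fun x => (cay x).re) +
      En (voronoiGraph A) (fun x => (cay x).im) < ⊤ :=
    ENNReal.add_lt_top.mpr ⟨hA.2.1, hA.2.2⟩
  have hle : ∑' y : S, ENNReal.ofReal (c ^ 2) ≤ En (voronoiGraph A) (fun x => (cay x).re) +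
      En (voronoiGraph A) (fun x => (cay x).im) := by
    unfold En
    rw [← ENNReal.tsum_add]
    have hinj : Function.Injective (fun y : S => ((x, y.1) : A × A)) := by
      intro y y' h
      exact Subtype.ext (Prod.ext_iff.mp h).2
    refine le_trans (ENNReal.tsum_le_tsum fun y => ?_) (ENNReal.tsum_comp_le_tsum_of_injective hinj _)
    have hadj : (voronoiGraph A).Adj x y.1 := y.2.1
    simp only [hadj, if_true]
    rw [← ENNReal.ofReal_add (sq_nonneg _) (sq_nonneg _), ← norm_cay_sub_sq]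
    refine ENNReal.ofReal_le_ofReal ?_
    exact pow_le_pow_left₀ hc.le (hfar _ y.2.2) 2
  have : Infinite S := hSinf.to_subtype
  rw [ENNReal.tsum_const_eq_top_of_ne_zero (by
    rw [Ne, ENNReal.ofReal_eq_zero, not_le]
    positivity)] at hle
  exact absurd (top_le_iff.mp hle) hsum.ne

end

end Pool.Agent.Y979.HM
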