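import Mathlib

/-!
# Dirichlet energy on a graph and simple random walk: definitions

Project HM (harmonic measure at infinity of the hyperbolic Poisson-Voronoi graph).
-/

set_option autoImplicit false

open MeasureTheory
open scoped ENNReal

namespace Pool.Agent.Y979.HM

noncomputable section

/-- The Dirichlet energy of a function on the vertices. The sum is over ordered pairs of adjacent
vertices, so every edge counts twice. -/
def En {V : Type*} (G : SimpleGraph V) (f : V → ℝ) : ℝ≥0∞ :=
  ∑' p : V × V, open Classical in
    if G.Adj p.1 p.2 then ENNReal.ofReal ((f p.1 - f p.2) ^ 2) else 0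

/-- The infimum of the energy over all modifications of `f` at finitely many vertices. -/
def Qn {V : Type*} (G : SimpleGraph V) (f : V → ℝ) : ℝ≥0∞ :=
  ⨅ φ : V →₀ ℝ, En G (f + φ)

/-- minus the bilinear form of the quadratic form `Qn` -/
def bn {V : Type*} (G : SimpleGraph V) (f g : V → ℝ) : ℝ :=
  ((Qn G (f - g)).toReal - (Qn G (f + g)).toReal) / 4

/-- all degrees are finite -/
def LF {V : Type*} (G : SimpleGraph V) : Prop := ∀ v, (G.neighborSet v).Finite

/-- the Laplacian of `u` at `v` (without normalisation) -/
def lap {V : Type*} (G : SimpleGraph V) (u : V → ℝ) (v : V) : ℝ :=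
  ∑ᶠ z ∈ G.neighborSet v, (u v - u z)

/-- the degree as a real number -/
def deg {V : Type*} (G : SimpleGraph V) (v : V) : ℝ := ((G.neighborSet v).ncard : ℝ)

/-- `X` is a simple random walk on the graph `G` started at `x`: the probability that its first
steps are `v 0, …, v n` is the product of the numbers `1 / deg (v i)` with `i < n` if
`v 0 = x` and consecutive vertices are adjacent, and it is zero otherwise. -/
structure IsSRW {V Ω' : Type*} [MeasurableSpace Ω'] (P' : Measure Ω') (G : SimpleGraph V) (x : V)
    (X : ℕ → Ω' → V) : Prop where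
  measurable_eq : ∀ (n : ℕ) (v : V), MeasurableSet {ω | X n ω = v}
  law : ∀ (n : ℕ) (v : ℕ → V), P' {ω | ∀ i ≤ n, X i ω = v i} =
    open Classical in
    if v 0 = x ∧ ∀ i < n, G.Adj (v i) (v (i + 1)) then
      ∏ i ∈ Finset.range n, (((G.neighborSet (v i)).encard : ℕ∞) : ℝ≥0∞)⁻¹
    else 0

/-- the walk visits every vertex only finitely often, and it does not visit `x` after time `k` -/
def Esc {V Ω' : Type*} (X : ℕ → Ω' → V) (x : V) (k : ℕ) : Set Ω' :=
  {ω | (∀ v, ∀ᶠ n in Filter.atTop, X n ω ≠ v) ∧ ∀ n, k < n → X n ω ≠ x}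

end

end Pool.Agent.Y979.HM
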