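import Pool.Agent.Y979.HM.Defs

/-!
# Project HM: the statements of the steps
-/

set_option autoImplicit false

open MeasureTheory UpperHalfPlane Filter Pool.Agent.Y979.HV
open scoped ENNReal Topology

namespace Pool.Agent.Y979.HM

universe u

/-! ## Networks -/

/-- minimal nonnegative solution of the Dirichlet problem on a finite set -/
def S_MIN : Prop := ∀ {V : Type} (G : SimpleGraph V), LF G → ∀ (W : Finset V) (F : V → ℝ) (C : ℝ),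
  (∀ v, 0 ≤ F v) → (∀ v, F v ≤ C) →
  ∃ w : V → ℝ, (∀ v, 0 ≤ w v) ∧ (∀ v, w v ≤ C) ∧ (∀ v, v ∉ W → w v = F v) ∧
    ∀ v ∈ W, lap G w v = 0

/-- the energy inequality on a finite set -/
def S_KEY : Prop := ∀ {V : Type} (G : SimpleGraph V), LF G → ∀ (W : Finset V) (x : V), x ∈ W →
  ∀ (F H f h : V → ℝ), (∀ v, 0 ≤ F v) → (∀ v, 0 ≤ H v) → (∀ v, F v * H v = 0) →
  En G F < ⊤ → En G H < ⊤ →
  (∀ v, v ∉ W → f v = F v) → f x = 0 → (∀ v ∈ W, v ≠ x → lap G f v = 0) →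
  (∀ v, v ∉ W → h v = H v) → h x = 0 → (∀ v ∈ W, v ≠ x → lap G h v = 0) →
  (∀ v, 0 ≤ f v) → (∀ v, 0 ≤ h v) →
  ∀ w : V → ℝ, (∀ v, v ∉ W → w v = F v - H v) →
    Qn G (F + H) + ENNReal.ofReal (8 * (lap G f x * lap G h x) / deg G x) ≤ En G w

/-- the walk at the exit from a finite set -/
def S_EXIT : Prop := ∀ {V Ω' : Type} [Countable V] [MeasurableSpace Ω'] (P' : Measure Ω')
  [IsProbabilityMeasure P'] (G : SimpleGraph V), LF G → ∀ (x : V) (X : ℕ → Ω' → V),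
  IsSRW P' G x X → ∀ W : Finset V, x ∈ W → ∀ w : V → ℝ, (∀ v, 0 ≤ w v) → w x = 0 →
  (∀ v ∈ W, v ≠ x → lap G w v = 0) → ∀ k : ℕ,
  ∑' n : ℕ, ∫⁻ ω in {ω | X n ω ∉ W ∧ (∀ i < n, X i ω ∈ W) ∧ ∀ i, k < i → i < n → X i ω ≠ x},
    ENNReal.ofReal (w (X n ω)) ∂P' ≤ (k + 1) * ENNReal.ofReal (-lap G w x / deg G x)

/-- the lower bound of the energy form by the limit distribution of the walk -/
def S_NET : Prop := ∀ {V Ω' : Type} [Countable V] [MeasurableSpace Ω'] (P' : Measure Ω')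
  [IsProbabilityMeasure P'] (G : SimpleGraph V), LF G → ∀ (x : V) (X : ℕ → Ω' → V),
  IsSRW P' G x X → ∀ (F H : V → ℝ) (C : ℝ), (∀ v, 0 ≤ F v) → (∀ v, 0 ≤ H v) →
  (∀ v, F v ≤ C) → (∀ v, H v ≤ C) → (∀ v, F v * H v = 0) → En G F < ⊤ → En G H < ⊤ → ∀ k : ℕ,
  (∫⁻ ω in Esc X x k, liminf (fun n => ENNReal.ofReal (F (X n ω))) atTop ∂P') *
    (∫⁻ ω in Esc X x k, liminf (fun n => ENNReal.ofReal (H (X n ω))) atTop ∂P') ≤
    (k + 1) ^ 2 * ENNReal.ofReal (bn G F H)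

/-! ## The graph -/

/-- adjacency by balls with exactly two points, first half -/
def S_ADJ1 : Prop := ∀ A : Set ℍ, LocFin A → ∀ x y : A, (voronoiGraph A).Adj x y → badj A x y

/-- adjacency by balls with exactly two points, second half -/
def S_ADJ2 : Prop := ∀ A : Set ℍ, LocFin A → ∀ x y : A, badj A x y → (voronoiGraph A).Adj x y

/-- Moebius transformations -/
def S_MOB : Prop := ∀ a b c d : ℝ, 0 < a * d - b * c →
  ∃ e : ℍ ≃ᵐ ℍ, Isometry e ∧ MeasurePreserving e volume volume ∧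
    ∀ z : ℍ, (e z : ℂ) = (a * z + b) / (c * z + d)

/-- the test functions are Lipschitz for the chordal metric -/
def S_LIP : Prop :=
  (∀ s t r : ℝ, s ≠ t → 0 < r → r < 1 → ∃ L, ∀ z w : ℍ, |gen s t r z - gen s t r w| ≤ L * ‖cay z - cay w‖) ∧
  (∀ s r : ℝ, 0 < r → ∃ L, ∀ z w : ℍ, |tent s r z - tent s r w| ≤ L * ‖cay z - cay w‖) ∧
  (∀ R : ℝ, 0 < R → ∃ L, ∀ z w : ℍ, |tinf R z - tinf R w| ≤ L * ‖cay z - cay w‖) ∧
  (∃ L, ∀ z w : ℍ, |Wp z - Wp w| ≤ L * ‖cay z - cay w‖) ∧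
  (∃ L, ∀ z w : ℍ, |Wm z - Wm w| ≤ L * ‖cay z - cay w‖)

/-! ## Measurability -/

/-- the energy is a measurable function -/
def S_MEN : Prop := ∀ {α : Type u} [MeasurableSpace α] (T : α → Conf), Measurable T →
  (∀ a, LocFin (pts (T a))) → ∀ F : α → ℍ → ℝ, Measurable (fun p : α × ℍ => F p.1 p.2) →
  Measurable (fun a => En (voronoiGraph (pts (T a))) (fun x => F a x))

/-- the infimum of the energy is a measurable function -/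
def S_MQN : Prop := ∀ {α : Type u} [MeasurableSpace α] (T : α → Conf), Measurable T →
  (∀ a, LocFin (pts (T a))) → (∀ a, LF (voronoiGraph (pts (T a)))) →
  ∀ F : α → ℍ → ℝ, Measurable (fun p : α × ℍ => F p.1 p.2) →
  Measurable (fun a => Qn (voronoiGraph (pts (T a))) (fun x => F a x))

/-! ## The Poisson process -/

/-- independence over disjoint sets -/
def S_IND : Prop := ∀ {Ω : Type u} [MeasurableSpace Ω] (P : Measure Ω) [IsProbabilityMeasure P]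
  (lam : ℝ) (Q : Ω → Set ℍ), IsPoissonProcess P lam Q → ∀ Z Z' : Set ℍ, MeasurableSet Z →
  MeasurableSet Z' → Disjoint Z Z' →
  ProbabilityTheory.Indep ((cs Z).comap fun ω => mk (Q ω)) ((cs Z').comap fun ω => mk (Q ω)) P

/-- uniqueness of the law -/
def S_LAW : Prop := ∀ {Ω : Type u} [MeasurableSpace Ω] (P : Measure Ω) [IsProbabilityMeasure P]
  (lam : ℝ) (Q Q' : Ω → Set ℍ), IsPoissonProcess P lam Q → IsPoissonProcess P lam Q' →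
  P.map (fun ω => mk (Q ω)) = P.map (fun ω => mk (Q' ω))

/-- the zero-one law -/
def S_ZO : Prop := ∀ {Ω : Type u} [MeasurableSpace Ω] (P : Measure Ω) [IsProbabilityMeasure P]
  (lam : ℝ) (Q : Ω → Set ℍ), IsPoissonProcess P lam Q → ∀ D : Set Conf, MeasurableSet D →
  (∀ᵐ ω ∂P, (mk (Q ω) ∈ D ↔ mk (dil2 '' Q ω) ∈ D)) →
  P {ω | mk (Q ω) ∈ D} = 0 ∨ P {ω | mk (Q ω) ∈ D} = 1

/-! ## The tile sum -/

/-- the energy at one point is bounded by the tile sum -/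
def S_TD : Prop := ∀ (A Z : Set ℍ) (p : ℤ × ℤ) (w : ℍ), w ∈ tile p → ∀ S : Set ℍ,
  (∀ x ∈ S, ∃ r : ℝ, 0 ≤ r ∧ dist w x ≤ 2 * r ∧ (r ≤ 3 ∨ ∃ c : ℍ, dist c w ≤ r ∧
    Metric.ball c (r - 3) ⊆ Z ∧ A ∩ Metric.ball c (r - 3) = ∅)) →
  ∑' x : S, ENNReal.ofReal (w.im ^ 2 * Real.exp (2 * dist w x)) ≤
    4 * ∑' L : ℕ, open Classical in if Bad Z p L A then
      ENNReal.ofReal ((4 : ℝ) ^ p.1 * Real.exp (4 * L)) *
        (((S ∩ Metric.closedBall (ctr p) (2 * L + 3)).encard : ℕ∞) : ℝ≥0∞) else 0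

/-- volumes of balls and numbers of tiles -/
def S_TV : Prop :=
  (∀ (z : ℍ) (r : ℝ), 0 ≤ r →
    volume (Metric.closedBall z r) ≤ ENNReal.ofReal (2 * Real.exp (2 * r))) ∧
  (∀ (z : ℍ) (r : ℝ), 2 ≤ r →
    ENNReal.ofReal (Real.exp (r / 2) / 2) ≤ volume (Metric.ball z r)) ∧
  (∀ (p : ℤ × ℤ) (r : ℝ), 0 ≤ r → {p' : ℤ × ℤ | dist (ctr p) (ctr p') ≤ r}.Finite ∧
    ({p' : ℤ × ℤ | dist (ctr p) (ctr p') ≤ r}.ncard : ℝ) ≤ 4 * Real.exp (2 * (r + 1)))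

/-- the expectation of the tile sum -/
def S_TE : Prop := ∀ lam : ℝ, 0 < lam → ∃ C : ℝ≥0∞, C < ⊤ ∧
  ∀ {Ω : Type u} [MeasurableSpace Ω] (P : Measure Ω) [IsProbabilityMeasure P]
  (Q : Ω → Set ℍ), IsPoissonProcess P lam Q → ∀ (Z : Set ℍ) (K : Set (ℤ × ℤ)), MeasurableSet Z →
  ∫⁻ ω, Psi Z K (Q ω) ∂P ≤ C * ∑' p : K, ENNReal.ofReal ((4 : ℝ) ^ p.1.1)

/-- measurability of the tile sum -/
def S_TM : Prop := ∀ (Z : Set ℍ) (K : Set (ℤ × ℤ)), MeasurableSet Z →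
  Measurable[cs Z] (fun A : Conf => Psi Z K (pts A))

/-- the configuration is good almost surely -/
def S_CE : Prop := ∀ {Ω : Type u} [MeasurableSpace Ω] (P : Measure Ω) [IsProbabilityMeasure P]
  (lam : ℝ) (Q : Ω → Set ℍ), IsPoissonProcess P lam Q → 0 < lam → ∀ᵐ ω ∂P, Good (Q ω)

/-! ## Low energy -/

/-- geometry of the grid: an empty ball which is centred in the middle -/
def S_G1 : Prop := ∀ κ η : ℝ, 0 < κ → κ ≤ 1 / 100 → 0 < η → η ≤ κ ^ 3 → ∀ A : Set ℍ,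
  GridOK κ η A → ∀ (c : ℍ) (ρ : ℝ), A ∩ Metric.ball c ρ = ∅ → |sc c| ≤ 3 → ∀ x ∈ A,
  dist c x = ρ → (x ∈ gboxes κ η ∧ |sc x - sc c| ≤ 3 / 5 * κ) ∨
    (x ∈ Zl κ ∧ |sc x - sc c| ≤ 8 / 5 * κ ∧ (ρ ≤ 3 ∨ Metric.ball c (ρ - 3) ⊆ Zl κ))

/-- geometry of the grid: an empty ball which is centred outside -/
def S_G2 : Prop := ∀ κ η : ℝ, 0 < κ → κ ≤ 1 / 100 → 0 < η → η ≤ κ ^ 3 → ∀ A : Set ℍ,
  GridOK κ η A → ∀ (c : ℍ) (ρ : ℝ), A ∩ Metric.ball c ρ = ∅ → ∀ x ∈ A, dist c x = ρ →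
  (3 < sc c → 1 < sc x) ∧ (sc c < -3 → sc x < -1)

/-- the energy of a grid configuration -/
def S_GE : Prop := ∃ C : ℝ, 0 < C ∧ ∀ κ η : ℝ, 0 < κ → κ ≤ 1 / 100 → 0 < η → η ≤ κ ^ 3 →
  ∀ A : Set ℍ, LocFin A → GridOK κ η A →
  En (voronoiGraph A) (fun x => Wp x - Wm x) ≤
    ENNReal.ofReal (C * κ) + ENNReal.ofReal C * Psi (Zl κ) {p | (tile p ∩ Zl κ).Nonempty} A

/-- the tiles that meet the low region -/
def S_GK : Prop := ∃ C : ℝ≥0∞, C < ⊤ ∧ ∀ κ : ℝ, 0 < κ → κ ≤ 1 / 100 →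
  ∑' p : {p : ℤ × ℤ | (tile p ∩ Zl κ).Nonempty}, ENNReal.ofReal ((4 : ℝ) ^ p.1.1) ≤
    C * ENNReal.ofReal κ

/-- the grid has positive probability -/
def S_GP : Prop := ∀ {Ω : Type u} [MeasurableSpace Ω] (P : Measure Ω) [IsProbabilityMeasure P]
  (lam : ℝ) (Q : Ω → Set ℍ), IsPoissonProcess P lam Q → 0 < lam → ∀ κ η : ℝ, 0 < κ →
  κ ≤ 1 / 100 → 0 < η → η ≤ κ ^ 3 →
  MeasurableSet (Zl κ) ∧ MeasurableSet (Zh κ) ∧
  MeasurableSet[(cs (Zh κ)).comap fun ω => mk (Q ω)] {ω | GridOK κ η (Q ω)} ∧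
  0 < P {ω | GridOK κ η (Q ω)}

/-- low energy has positive probability -/
def S_LOW : Prop := ∀ {Ω : Type u} [MeasurableSpace Ω] (P : Measure Ω) [IsProbabilityMeasure P]
  (lam : ℝ) (Q : Ω → Set ℍ), IsPoissonProcess P lam Q → 0 < lam → ∀ κ : ℝ, 0 < κ →
  ¬ ∀ᵐ ω ∂P, ENNReal.ofReal κ ≤ En (voronoiGraph (Q ω)) (fun x => Wp x - Wm x)

/-! ## The main argument -/

/-- comparison of the two kinds of bumps -/
def S_CMP : Prop := ∀ A : Set ℍ, Good A → ∀ s t r : ℝ, s < t → 0 < r → r < 1 / 4 →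
  bn (voronoiGraph A) (fun x => gen s t r x) (fun x => gen t s r x) ≤
    bn (voronoiGraph A) (fun x => tent s (2 * r * (t - s)) x) (fun x => tent t (2 * r * (t - s)) x)

/-- the partition of unity -/
def S_PU : Prop := ∀ A : Set ℍ, Good A → ∀ m : ℕ, 10 ≤ m →
  ENNReal.ofReal (4 * ∑ l ∈ Finset.Icc (-(m : ℤ)) m, ∑ k ∈ Finset.Icc (12 * (m : ℤ)) (16 * m),
    bn (voronoiGraph A) (fun x => tent ((l : ℝ) / (4 * m)) (1 / (4 * m)) x)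
      (fun x => tent ((k : ℝ) / (4 * m)) (1 / (4 * m)) x)) ≤
    En (voronoiGraph A) (fun x => Wp x - Wm x)

/-- the discrete sum -/
def S_SUM : Prop := ∀ {Ω : Type u} [MeasurableSpace Ω] (P : Measure Ω) [IsProbabilityMeasure P]
  (lam : ℝ) (Q : Ω → Set ℍ), IsPoissonProcess P lam Q → 0 < lam → ∀ c : ℝ, 0 < c →
  P {ω | mk (Q ω) ∈ Ev c} = 0 → ∃ κ : ℝ, 0 < κ ∧
  ∀ᵐ ω ∂P, ENNReal.ofReal κ ≤ En (voronoiGraph (Q ω)) (fun x => Wp x - Wm x)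

/-- the energy density is zero, for the imaginary axis -/
def S_ZERO : Prop := ∀ {Ω : Type u} [MeasurableSpace Ω] (P : Measure Ω) [IsProbabilityMeasure P]
  (lam : ℝ) (Q : Ω → Set ℍ), IsPoissonProcess P lam Q → 0 < lam → ∀ c : ℝ, 0 < c →
  ∀ᵐ ω ∂P, mk (Q ω) ∈ Ev c

/-- the energy density is zero, for almost every geodesic -/
def S_FUB : Prop := ∀ {Ω : Type u} [MeasurableSpace Ω] (P : Measure Ω) [IsProbabilityMeasure P]
  (lam : ℝ) (Q : Ω → Set ℍ), IsPoissonProcess P lam Q → 0 < lam →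
  ∀ᵐ ω ∂P, ∀ᵐ p : ℝ × ℝ, p.1 < p.2 → ∀ m : ℕ, EvP (1 / (m + 1)) p.1 p.2 (Q ω)

/-- the harmonic measure on the real line is singular, deterministic version -/
def S_DIFF : Prop := ∀ A : Set ℍ, Good A →
  (∀ᵐ p : ℝ × ℝ, p.1 < p.2 → ∀ m : ℕ, EvP (1 / (m + 1)) p.1 p.2 A) →
  ∀ (x : A) {Ω' : Type} [MeasurableSpace Ω'] (P' : Measure Ω') [IsProbabilityMeasure P']
  (X : ℕ → Ω' → A), IsSRW P' (voronoiGraph A) x X →
  ∃ N : Set ℝ, volume N = 0 ∧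
    P' {ω | ∃ ξ : ℝ, ξ ∉ N ∧ Tendsto (fun n => ((X n ω : ℍ) : ℂ)) atTop (𝓝 (ξ : ℂ))} = 0

end Pool.Agent.Y979.HM
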