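import Pool.Agent.Y979.HM.Zero

/-!
# The discrete sum
-/

set_option autoImplicit false

open MeasureTheory UpperHalfPlane Filter Pool.Agent.Y979.HV
open scoped ENNReal Topology

namespace Pool.Agent.Y979.HM

universe u

noncomputable section

/-- the event that the normalised energy is small at one of the scales beyond `N` -/
def EvN (c : ℝ) (N : ℕ) : Set Conf :=
  {A | Good (pts A)} ∩ {A | ∃ r R : ℚ, 0 < r ∧ (r : ℝ) < 1 / (N + 1) ∧ (N : ℝ) + 1 < R ∧
    ((R : ℝ) / r) * bn (voronoiGraph (pts A)) (fun x => tent 0 r x) (fun x => tinf R x) < c}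

/-- the event at one pair of scales -/
def Ev1 (c r R : ℝ) : Set Conf :=
  {A | Good (pts A)} ∩ {A | (R / r) * bn (voronoiGraph (pts A)) (fun x => tent 0 r x)
    (fun x => tinf R x) < c}

theorem measurableSet_Ev1 (hmen : S_MEN.{0}) (hmqn : S_MQN.{0}) (c r R : ℝ) :
    MeasurableSet (Ev1 c r R) := by
  have h := measurable_bn hmen hmqn (T := fun A : Conf => A) measurable_id
      (F := fun _ z => tent 0 r z) (H := fun _ z => tinf R z)
      ((measurable_tent _ _).comp measurable_snd) ((measurable_tinf _).comp measurable_snd)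
  have e : Ev1 c r R = {A | Good (pts A)} ∩ {A : Conf | (R / r) * bn (voronoiGraph (pts (TG A)))
      (fun x => tent 0 r x) (fun x => tinf R x) < c} := by
    ext A
    constructor
    · rintro ⟨hA, hE⟩
      refine ⟨hA, ?_⟩
      show _ < c
      rw [TG_of_good hA]
      exact hE
    · rintro ⟨hA, hE⟩
      refine ⟨hA, ?_⟩
      have h5 : (R / r) * bn (voronoiGraph (pts (TG A)))
        (fun x => tent 0 r x) (fun x => tinf R x) < c := hE
      rw [TG_of_good hA] at h5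
      exact h5
  rw [e]
  exact (measurableSet_good hmen).inter (measurableSet_lt (h.const_mul _) measurable_const)

theorem EvN_eq (c : ℝ) (N : ℕ) : EvN c N = ⋃ (r : ℚ) (R : ℚ)
    (_ : 0 < r ∧ (r : ℝ) < 1 / (N + 1) ∧ (N : ℝ) + 1 < R), Ev1 c r R := by
  ext A
  constructor
  · rintro ⟨hA, r, R, a1, a2, a3, a4⟩
    rw [Set.mem_iUnion]
    refine ⟨r, ?_⟩
    rw [Set.mem_iUnion]
    refine ⟨R, ?_⟩
    rw [Set.mem_iUnion]
    exact ⟨⟨a1, a2, a3⟩, hA, a4⟩
  · intro h
    rw [Set.mem_iUnion] at h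
    obtain ⟨r, h⟩ := h
    rw [Set.mem_iUnion] at h
    obtain ⟨R, h⟩ := h
    rw [Set.mem_iUnion] at h
    obtain ⟨⟨a1, a2, a3⟩, hA, a4⟩ := h
    exact ⟨hA, r, R, a1, a2, a3, a4⟩

theorem measurableSet_EvN (hmen : S_MEN.{0}) (hmqn : S_MQN.{0}) (c : ℝ) (N : ℕ) :
    MeasurableSet (EvN c N) := by
  rw [EvN_eq]
  exact MeasurableSet.iUnion fun r => MeasurableSet.iUnion fun R => MeasurableSet.iUnion
    fun _ => measurableSet_Ev1 hmen hmqn c r R

theorem EvN_anti (c : ℝ) : Antitone (EvN c) := by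
  intro N N' h A hA
  obtain ⟨hg, r, R, a1, a2, a3, a4⟩ := hA
  have h' : (N : ℝ) ≤ N' := by exact_mod_cast h
  have h0 : (0 : ℝ) ≤ N := Nat.cast_nonneg N
  refine ⟨hg, r, R, a1, a2.trans_le ?_, by linarith, a4⟩
  exact one_div_le_one_div_of_le (by linarith) (by linarith)

theorem iInter_EvN (c : ℝ) : ⋂ N, EvN c N ⊆ Ev c := by
  intro A hA n
  rw [Set.mem_iInter] at hA
  exact (hA n).2

/-- the probability that the energy is small at large scales tends to zero -/
theorem tendsto_EvN (hmen : S_MEN.{0}) (hmqn : S_MQN.{0}) {Ω : Type u} [MeasurableSpace Ω]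
    (P : Measure Ω) [IsProbabilityMeasure P] (lam : ℝ) (Q : Ω → Set ℍ)
    (hQ : IsPoissonProcess P lam Q) {c : ℝ} (h0 : P {ω | mk (Q ω) ∈ Ev c} = 0) :
    Tendsto (fun N => P {ω | mk (Q ω) ∈ EvN c N}) atTop (𝓝 0) := by
  have h1 := tendsto_measure_iInter_atTop (μ := P) (s := fun N => {ω | mk (Q ω) ∈ EvN c N})
    (fun N => ((measurable_mk hQ) (measurableSet_EvN hmen hmqn c N)).nullMeasurableSet)
    (fun N N' h ω hω => EvN_anti c h hω) ⟨0, measure_ne_top _ _⟩
  have h2 : P (⋂ N, {ω | mk (Q ω) ∈ EvN c N}) = 0 := by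
    refine measure_mono_null (fun ω hω => ?_) h0
    apply iInter_EvN c
    rw [Set.mem_iInter] at hω ⊢
    exact hω
  rwa [h2] at h1

/-- the bad event for one pair of tents -/
theorem bad_pair (hmob : S_MOB) (hlip : S_LIP) (hmen : S_MEN.{0}) (hmqn : S_MQN.{0})
    (hlaw : S_LAW.{u}) (hce : S_CE.{u}) {Ω : Type u} [MeasurableSpace Ω]
    (P : Measure Ω) [IsProbabilityMeasure P] (lam : ℝ) (Q : Ω → Set ℍ)
    (hQ : IsPoissonProcess P lam Q) (hlam : 0 < lam) (c : ℝ) {N m : ℕ} (hm : N + 1 ≤ m)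
    {l k : ℤ} (hl : l ≤ m) (hk : 12 * (m : ℤ) ≤ k) :
    P {ω | (2 * ((k : ℝ) - l)) ^ 2 * bn (voronoiGraph (Q ω))
      (fun x => tent ((l : ℝ) / (4 * m)) (1 / (4 * m)) x)
      (fun x => tent ((k : ℝ) / (4 * m)) (1 / (4 * m)) x) < c} ≤ P {ω | mk (Q ω) ∈ EvN c N} := by
  have hm0 : 0 < m := by omega
  have hmR : (0 : ℝ) < m := by exact_mod_cast hm0
  have hkl : 11 * (m : ℤ) ≤ k - l := by linarith
  have hklR : 11 * (m : ℝ) ≤ (k : ℝ) - l := by exact_mod_cast hkl
  have hkl0 : (0 : ℝ) < (k : ℝ) - l := by linarith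
  set s : ℝ := (l : ℝ) / (4 * m) with hs
  set t : ℝ := (k : ℝ) / (4 * m) with ht
  have hts : t - s = ((k : ℝ) - l) / (4 * m) := by rw [hs, ht]; ring
  have hst : s < t := by
    rw [← sub_pos, hts]
    positivity
  set R : ℝ := 2 * ((k : ℝ) - l) with hR
  set r : ℝ := 1 / R with hr
  have hR0 : 0 < R := by positivity
  have hr0 : 0 < r := by positivity
  have hR4 : 4 < R := by
    have : (1 : ℝ) ≤ m := by exact_mod_cast hm0
    rw [hR]; linarith
  have hr4 : r < 1 / 4 := by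
    rw [hr]
    exact one_div_lt_one_div_of_lt (by norm_num) hR4
  have hδ : 2 * r * (t - s) = 1 / (4 * m) := by
    rw [hts, hr, hR]
    field_simp
  obtain ⟨e, he1, he2, he3⟩ := bn_mob hmob hst
  have hQe := isPoisson_image hQ e he2
  have hg := hce P lam Q hQ hlam
  have hge := hce P lam _ hQe hlam
  -- comparison with the event for the image process
  have step1 : P {ω | R ^ 2 * bn (voronoiGraph (Q ω)) (fun x => tent s (1 / (4 * m)) x)
      (fun x => tent t (1 / (4 * m)) x) < c} ≤ P {ω | mk (e '' Q ω) ∈ Ev1 c r R} := by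
    refine measure_mono_ae ?_
    filter_upwards [hg, hge] with ω h1 h2 h3
    refine ⟨h2, ?_⟩
    show (R / r) * bn (voronoiGraph (e '' Q ω)) (fun x => tent 0 r x) (fun x => tinf R x) < c
    rw [he3 _ _ _ hR0]
    have h4 := cmp hlip (Q ω) h1 s t r hst hr0 hr4
    rw [hδ] at h4
    have h5 : R / r = R ^ 2 := by rw [hr]; field_simp
    rw [h5]
    have h6 : R ^ 2 * bn (voronoiGraph (Q ω)) (fun x => tent s (1 / (4 * m)) x)
      (fun x => tent t (1 / (4 * m)) x) < c := h3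
    have h7 := mul_le_mul_of_nonneg_left h4 (sq_nonneg R)
    exact lt_of_le_of_lt h7 h6
  -- same law
  have step2 : P {ω | mk (e '' Q ω) ∈ Ev1 c r R} = P {ω | mk (Q ω) ∈ Ev1 c r R} := by
    have h1 := hlaw P lam Q _ hQ hQe
    have h2 : P.map (fun ω => mk (Q ω)) (Ev1 c r R) =
      P.map (fun ω => mk (e '' Q ω)) (Ev1 c r R) := by rw [h1]
    rw [Measure.map_apply (measurable_mk hQ) (measurableSet_Ev1 hmen hmqn c r R),
      Measure.map_apply (measurable_mk hQe) (measurableSet_Ev1 hmen hmqn c r R)] at h2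
    exact h2.symm
  refine step1.trans (step2.le.trans (measure_mono fun ω hω => ?_))
  refine ⟨hω.1, 1 / (2 * ((k : ℚ) - l)), 2 * ((k : ℚ) - l), ?_, ?_, ?_, ?_⟩
  · have : (0 : ℚ) < (k : ℚ) - l := by exact_mod_cast hkl0
    positivity
  · push_cast
    have h1 : (N : ℝ) + 1 ≤ m := by exact_mod_cast hm
    refine one_div_lt_one_div_of_lt (by positivity) ?_
    linarith
  · push_cast
    have h1 : (N : ℝ) + 1 ≤ m := by exact_mod_cast hm
    linarith
  · have h1 := hω.2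
    have h2 : (R / r) * bn (voronoiGraph (Q ω)) (fun x => tent 0 r x) (fun x => tinf R x) < c := h1
    have e1 : ((1 / (2 * ((k : ℚ) - l)) : ℚ) : ℝ) = r := by
      rw [hr, hR]; push_cast; rfl
    have e2 : ((2 * ((k : ℚ) - l) : ℚ) : ℝ) = R := by
      rw [hR]; push_cast; rfl
    show (((2 * ((k : ℚ) - l) : ℚ) : ℝ) / ((1 / (2 * ((k : ℚ) - l)) : ℚ) : ℝ)) *
      bn (voronoiGraph (Q ω)) (fun x => tent 0 ((1 / (2 * ((k : ℚ) - l)) : ℚ) : ℝ) x)
        (fun x => tinf ((2 * ((k : ℚ) - l) : ℚ) : ℝ) x) < c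
    rw [e1, e2]
    exact h2

/-- counting: if fewer than half of the terms are small then the sum is large -/
theorem half_sum {ι : Type*} [DecidableEq ι] (S : Finset ι) (b : ι → ℝ) (bad : ι → Prop)
    [DecidablePred bad] {a : ℝ} (ha : 0 ≤ a) (hb0 : ∀ i ∈ S, 0 ≤ b i)
    (hb : ∀ i ∈ S, ¬ bad i → a ≤ b i) (hcard : 2 * (S.filter bad).card ≤ S.card) :
    (S.card : ℝ) / 2 * a ≤ ∑ i ∈ S, b i := by
  have h1 : ∑ i ∈ S.filter (fun i => ¬ bad i), a ≤ ∑ i ∈ S, b i := by
    refine le_trans (Finset.sum_le_sum fun i hi => ?_)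
      (Finset.sum_le_sum_of_subset_of_nonneg (Finset.filter_subset _ _) fun i hi _ => hb0 i hi)
    rw [Finset.mem_filter] at hi
    exact hb i hi.1 hi.2
  rw [Finset.sum_const, nsmul_eq_mul] at h1
  refine le_trans (mul_le_mul_of_nonneg_right ?_ ha) h1
  have h2 := Finset.card_filter_add_card_filter_not (s := S) bad
  have h3 : (S.card : ℝ) = (S.filter bad).card + (S.filter fun i => ¬ bad i).card := by
    exact_mod_cast h2.symm
  have h4 : 2 * ((S.filter bad).card : ℝ) ≤ S.card := by exact_mod_cast hcard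
  linarith

/-- Markov inequality for the number of bad events -/
theorem markov_count {Ω ι : Type*} [MeasurableSpace Ω] (P : Measure Ω) (S : Finset ι)
    (B : ι → Set Ω) (hB : ∀ i ∈ S, MeasurableSet (B i)) {b : ℝ≥0∞} (hb : ∀ i ∈ S, P (B i) ≤ b)
    (hS : S.Nonempty) :
    P {ω | open Classical in (S.card : ℝ≥0∞) / 2 ≤ ((S.filter fun i => ω ∈ B i).card : ℝ≥0∞)} ≤
      2 * b := by
  classical
  have h1 : ∀ ω, ((S.filter fun i => ω ∈ B i).card : ℝ≥0∞) =
      ∑ i ∈ S, (B i).indicator (fun _ => (1 : ℝ≥0∞)) ω := by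
    intro ω
    rw [Finset.card_filter]
    push_cast
    refine Finset.sum_congr rfl fun i _ => ?_
    rw [Set.indicator_apply]
  have hmeas : ∀ i ∈ S, Measurable ((B i).indicator fun _ => (1 : ℝ≥0∞)) := fun i hi =>
    measurable_const.indicator (hB i hi)
  have h2 : ∫⁻ ω, ∑ i ∈ S, (B i).indicator (fun _ => (1 : ℝ≥0∞)) ω ∂P ≤ S.card * b := by
    rw [lintegral_finsetSum' _ fun i hi => (hmeas i hi).aemeasurable]
    calc ∑ i ∈ S, ∫⁻ ω, (B i).indicator (fun _ => (1 : ℝ≥0∞)) ω ∂P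
        ≤ ∑ _i ∈ S, b := Finset.sum_le_sum fun i hi => by
          rw [lintegral_indicator (hB i hi), setLIntegral_const, one_mul]
          exact hb i hi
      _ = S.card * b := by rw [Finset.sum_const, nsmul_eq_mul]
  have hc0 : (S.card : ℝ≥0∞) ≠ 0 := by
    exact_mod_cast hS.card_pos.ne'
  have hc1 : (S.card : ℝ≥0∞) ≠ ⊤ := ENNReal.natCast_ne_top _
  have h3 := mul_meas_ge_le_lintegral₀ (μ := P)
    (f := fun ω => ∑ i ∈ S, (B i).indicator (fun _ => (1 : ℝ≥0∞)) ω)
    (Finset.aemeasurable_fun_sum S fun i hi => (hmeas i hi).aemeasurable) ((S.card : ℝ≥0∞) / 2)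
  simp_rw [h1]
  have h4 := h3.trans h2
  have h5 : (S.card : ℝ≥0∞) * ((P {ω | (S.card : ℝ≥0∞) / 2 ≤
      ∑ i ∈ S, (B i).indicator (fun _ => (1 : ℝ≥0∞)) ω}) / 2) ≤ S.card * b := by
    refine le_trans (le_of_eq ?_) h4
    rw [div_eq_mul_inv, div_eq_mul_inv]
    ring
  have h6 := (ENNReal.mul_le_mul_iff_right hc0 hc1).mp h5
  rw [ENNReal.div_le_iff (by simp) (by simp)] at h6
  rw [mul_comm]
  exact h6

theorem card_pairs (m : ℕ) : ((Finset.Icc (-(m : ℤ)) m ×ˢ Finset.Icc (12 * (m : ℤ)) (16 * m)).card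
    : ℝ) = (2 * m + 1) * (4 * m + 1) := by
  rw [Finset.card_product, Int.card_Icc, Int.card_Icc]
  have h1 : ((m : ℤ) + 1 - -(m : ℤ)).toNat = 2 * m + 1 := by omega
  have h2 : ((16 * m : ℤ) + 1 - 12 * m).toNat = 4 * m + 1 := by omega
  rw [h1, h2]
  push_cast
  ring

theorem sum_ (hmob : S_MOB) (hlip : S_LIP) (hmen : S_MEN.{0}) (hmqn : S_MQN.{0})
    (hmqnu : S_MQN.{u}) (hlaw : S_LAW.{u}) (hce : S_CE.{u}) : S_SUM.{u} := by
  classical
  intro Ω _ P _ lam Q hQ hlam c hc h0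
  refine ⟨4 * (c / 289), by positivity, ?_⟩
  have hg := hce P lam Q hQ hlam
  have hlim := tendsto_EvN hmen hmqn P lam Q hQ h0
  have key : ∀ N : ℕ, P {ω | ¬ ENNReal.ofReal (4 * (c / 289)) ≤
      En (voronoiGraph (Q ω)) (fun x => Wp x - Wm x)} ≤ 2 * P {ω | mk (Q ω) ∈ EvN c N} := by
    intro N
    set m : ℕ := max 10 (N + 1) with hm
    have hm10 : 10 ≤ m := le_max_left _ _
    have hmN : N + 1 ≤ m := le_max_right _ _
    have hmR : (10 : ℝ) ≤ m := by exact_mod_cast hm10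
    have hm0 : (0 : ℝ) < m := by linarith
    set S : Finset (ℤ × ℤ) := Finset.Icc (-(m : ℤ)) m ×ˢ Finset.Icc (12 * (m : ℤ)) (16 * m) with hS
    have hmem : ∀ i ∈ S, (-(m : ℤ) ≤ i.1 ∧ i.1 ≤ m) ∧ 12 * (m : ℤ) ≤ i.2 ∧ i.2 ≤ 16 * m := by
      intro i hi
      rw [hS, Finset.mem_product, Finset.mem_Icc, Finset.mem_Icc] at hi
      exact hi
    let b : ℤ × ℤ → Ω → ℝ := fun i ω => bn (voronoiGraph (Q ω))
      (fun x => tent ((i.1 : ℝ) / (4 * m)) (1 / (4 * m)) x)
      (fun x => tent ((i.2 : ℝ) / (4 * m)) (1 / (4 * m)) x)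
    let B : ℤ × ℤ → Set Ω := fun i => {ω | (2 * ((i.2 : ℝ) - i.1)) ^ 2 *
      bn (voronoiGraph (pts (TG (mk (Q ω)))))
      (fun x => tent ((i.1 : ℝ) / (4 * m)) (1 / (4 * m)) x)
      (fun x => tent ((i.2 : ℝ) / (4 * m)) (1 / (4 * m)) x) < c}
    have hBmeas : ∀ i ∈ S, MeasurableSet (B i) := by
      intro i _
      have h := measurable_bn hmen hmqnu (T := fun ω : Ω => mk (Q ω)) (measurable_mk hQ)
        (F := fun _ z => tent ((i.1 : ℝ) / (4 * m)) (1 / (4 * m)) z)
        (H := fun _ z => tent ((i.2 : ℝ) / (4 * m)) (1 / (4 * m)) z)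
        ((measurable_tent _ _).comp measurable_snd) ((measurable_tent _ _).comp measurable_snd)
      exact measurableSet_lt (h.const_mul _) measurable_const
    have hTG : ∀ ω, Good (Q ω) → pts (TG (mk (Q ω))) = Q ω := by
      intro ω hω
      rw [TG_of_good (A := mk (Q ω)) hω]
      rfl
    have hBP : ∀ i ∈ S, P (B i) ≤ P {ω | mk (Q ω) ∈ EvN c N} := by
      intro i hi
      obtain ⟨⟨_, h2⟩, h3, _⟩ := hmem i hi
      refine le_trans (measure_mono_ae ?_)
        (bad_pair hmob hlip hmen hmqn hlaw hce P lam Q hQ hlam c hmN h2 h3)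
      filter_upwards [hg] with ω h1 h4
      have h5 : (2 * ((i.2 : ℝ) - i.1)) ^ 2 *
        bn (voronoiGraph (pts (TG (mk (Q ω)))))
        (fun x => tent ((i.1 : ℝ) / (4 * m)) (1 / (4 * m)) x)
        (fun x => tent ((i.2 : ℝ) / (4 * m)) (1 / (4 * m)) x) < c := h4
      rw [hTG ω h1] at h5
      exact h5
    have hSne : S.Nonempty := by
      refine ⟨(0, 12 * (m : ℤ)), ?_⟩
      rw [hS, Finset.mem_product, Finset.mem_Icc, Finset.mem_Icc]
      constructor <;> constructor <;> simp <;> omega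
    refine le_trans (measure_mono_ae ?_) (markov_count P S B hBmeas hBP hSne)
    filter_upwards [hg] with ω h1 h2
    show (S.card : ℝ≥0∞) / 2 ≤ ((S.filter fun i => ω ∈ B i).card : ℝ≥0∞)
    by_contra hcon
    apply h2
    rw [not_le, ENNReal.lt_div_iff_mul_lt (by simp) (by simp)] at hcon
    have hcard : 2 * (S.filter fun i => ω ∈ B i).card ≤ S.card := by
      have h3 : ((S.filter fun i => ω ∈ B i).card * 2 : ℕ) < S.card := by exact_mod_cast hcon
      omega
    have hsum := half_sum S (fun i => b i ω) (fun i => ω ∈ B i) (a := c / (34 * m) ^ 2)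
      (by positivity) (fun i hi => ?_) (fun i hi hbad => ?_) hcard
    · have hpu := pu hlip (Q ω) h1 m hm10
      refine le_trans (ENNReal.ofReal_le_ofReal ?_) hpu
      have h4 : ∑ i ∈ S, b i ω = ∑ l ∈ Finset.Icc (-(m : ℤ)) m,
          ∑ k ∈ Finset.Icc (12 * (m : ℤ)) (16 * m), b (l, k) ω := by
        rw [hS, Finset.sum_product]
      rw [h4] at hsum
      have h5 : c / 289 ≤ (S.card : ℝ) / 2 * (c / (34 * m) ^ 2) := by
        rw [hS, card_pairs]
        rw [div_mul_div_comm, div_le_div_iff₀ (by norm_num) (by positivity)]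
        nlinarith [mul_pos hc hm0, mul_pos (mul_pos hc hm0) hm0]
      have h6 := h5.trans hsum
      have h7 := mul_le_mul_of_nonneg_left h6 (by norm_num : (0 : ℝ) ≤ 4)
      exact h7
    · obtain ⟨⟨a1, a2⟩, a3, a4⟩ := hmem i hi
      have hδ : (0 : ℝ) < 1 / (4 * m) := by positivity
      obtain ⟨L1, hL1⟩ := hlip.2.1 ((i.1 : ℝ) / (4 * m)) (1 / (4 * m)) hδ
      obtain ⟨L2, hL2⟩ := hlip.2.1 ((i.2 : ℝ) / (4 * m)) (1 / (4 * m)) hδ
      refine bn_nonneg (fun v => tent_nonneg _ _ _) (fun v => tent_nonneg _ _ _) (fun v => ?_)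
        (En_lt_of_lip h1 hL1) (En_lt_of_lip h1 hL2)
      refine tent_disjoint hδ ?_ _
      have h3 : 11 * (m : ℝ) ≤ (i.2 : ℝ) - i.1 := by
        have : 11 * (m : ℤ) ≤ i.2 - i.1 := by linarith
        exact_mod_cast this
      rw [← sub_div, abs_div, abs_of_pos (by positivity : (0 : ℝ) < 4 * m), abs_sub_comm,
        abs_of_nonneg (by linarith), mul_one_div]
      exact div_le_div_of_nonneg_right (by linarith) (by positivity)
    · obtain ⟨⟨a1, a2⟩, a3, a4⟩ := hmem i hi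
      have h3 : 11 * (m : ℝ) ≤ (i.2 : ℝ) - i.1 := by
        have : 11 * (m : ℤ) ≤ i.2 - i.1 := by linarith
        exact_mod_cast this
      have h4 : (i.2 : ℝ) - i.1 ≤ 17 * m := by
        have : i.2 - i.1 ≤ 17 * (m : ℤ) := by linarith
        exact_mod_cast this
      have h5 : ¬ ((2 * ((i.2 : ℝ) - i.1)) ^ 2 * b i ω < c) := by
        intro h6
        apply hbad
        show (2 * ((i.2 : ℝ) - i.1)) ^ 2 *
          bn (voronoiGraph (pts (TG (mk (Q ω)))))
          (fun x => tent ((i.1 : ℝ) / (4 * m)) (1 / (4 * m)) x)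
          (fun x => tent ((i.2 : ℝ) / (4 * m)) (1 / (4 * m)) x) < c
        rw [hTG ω h1]
        exact h6
      rw [not_lt] at h5
      rw [div_le_iff₀ (by positivity)]
      have hb0 : 0 ≤ b i ω := by
        by_contra h6
        rw [not_le] at h6
        have : (2 * ((i.2 : ℝ) - i.1)) ^ 2 * b i ω ≤ 0 :=
          mul_nonpos_of_nonneg_of_nonpos (sq_nonneg _) h6.le
        linarith
      refine h5.trans ?_
      rw [mul_comm]
      refine mul_le_mul_of_nonneg_left ?_ hb0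
      exact pow_le_pow_left₀ (by linarith) (by linarith) 2
  have h2 : Tendsto (fun N => 2 * P {ω | mk (Q ω) ∈ EvN c N}) atTop (𝓝 0) := by
    have := ENNReal.Tendsto.const_mul (a := 2) hlim (Or.inr (by simp))
    rwa [mul_zero] at this
  have h3 : P {ω | ¬ ENNReal.ofReal (4 * (c / 289)) ≤
      En (voronoiGraph (Q ω)) (fun x => Wp x - Wm x)} ≤ 0 :=
    ge_of_tendsto' h2 key
  exact le_antisymm h3 bot_le

end

end Pool.Agent.Y979.HM
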