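import Pool.Agent.Y979.HM.Meas
import Pool.Agent.Y979.HM.Cmp

/-!
# The energy density vanishes
-/

set_option autoImplicit false

open MeasureTheory UpperHalfPlane Filter Pool.Agent.Y979.HV
open scoped ENNReal Topology

namespace Pool.Agent.Y979.HM

universe u

noncomputable section

/-! ## Moebius maps and test functions -/

theorem tent_zero_mob {e : ℍ ≃ᵐ ℍ} {s t r : ℝ}
    (he : ∀ z : ℍ, (e z : ℂ) = ((1 : ℝ) * z + (-s : ℝ)) / ((-1 : ℝ) * z + (t : ℝ))) (z : ℍ) :
    tent 0 r (e z) = gen s t r z := by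
  unfold tent gen
  have h1 : ‖((e z : ℍ) : ℂ) - ((0 : ℝ) : ℂ)‖ = ‖(z : ℂ) - s‖ / ‖(z : ℂ) - t‖ := by
    rw [he, Complex.ofReal_zero, sub_zero, norm_div]
    congr 1
    · congr 1
      push_cast
      ring
    · rw [norm_sub_rev]
      congr 1
      push_cast
      ring
  rw [h1, div_div, mul_comm ‖(z : ℂ) - t‖ r]

theorem tinf_mob {e : ℍ ≃ᵐ ℍ} {s t R : ℝ} (hR : 0 < R)
    (he : ∀ z : ℍ, (e z : ℂ) = ((1 : ℝ) * z + (-s : ℝ)) / ((-1 : ℝ) * z + (t : ℝ))) (z : ℍ) :
    tinf R (e z) = gen t s (1 / R) z := by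
  unfold tinf gen
  have h1 : ‖((e z : ℍ) : ℂ)‖ = ‖(z : ℂ) - s‖ / ‖(z : ℂ) - t‖ := by
    rw [he, norm_div]
    congr 1
    · congr 1
      push_cast
      ring
    · rw [norm_sub_rev]
      congr 1
      push_cast
      ring
  have h2 := norm_sub_real_pos z s
  have h3 := norm_sub_real_pos z t
  rw [h1]
  congr 2
  field_simp

/-- the two ends of the imaginary axis and the ends of another geodesic -/
theorem bn_mob (hmob : S_MOB) {s t : ℝ} (hst : s < t) : ∃ e : ℍ ≃ᵐ ℍ, Isometry e ∧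
    MeasurePreserving e volume volume ∧ ∀ (A : Set ℍ) (r R : ℝ), 0 < R →
      bn (voronoiGraph (e '' A)) (fun x => tent 0 r x) (fun x => tinf R x) =
        bn (voronoiGraph A) (fun x => gen s t r x) (fun x => gen t s (1 / R) x) := by
  obtain ⟨e, he1, he2, he3⟩ := hmob 1 (-s) (-1) t (by linarith)
  refine ⟨e, he1, he2, fun A r R hR => ?_⟩
  have h := bn_image (e := e.toEquiv) he1 A (tent 0 r) (tinf R)
  refine Eq.trans h ?_
  congr 1
  · funext x
    exact tent_zero_mob he3 x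
  · funext x
    exact tinf_mob hR he3 x

theorem mem_Ev_mob (hmob : S_MOB) {s t : ℝ} (hst : s < t) : ∃ e : ℍ ≃ᵐ ℍ, Isometry e ∧
    MeasurePreserving e volume volume ∧ ∀ (A : Set ℍ) (c : ℝ),
      mk (e '' A) ∈ Ev c ↔ EvP c s t A := by
  obtain ⟨e, he1, he2, he3⟩ := bn_mob hmob hst
  refine ⟨e, he1, he2, fun A c => ?_⟩
  constructor
  · intro h n
    obtain ⟨r, R, h1, h2, h3, h4⟩ := h n
    have hR : (0 : ℝ) < R := by
      have : (0 : ℝ) ≤ n := Nat.cast_nonneg n
      linarith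
    refine ⟨r, R, h1, h2, h3, ?_⟩
    rw [← he3 A r R hR]
    exact h4
  · intro h n
    obtain ⟨r, R, h1, h2, h3, h4⟩ := h n
    have hR : (0 : ℝ) < R := by
      have : (0 : ℝ) ≤ n := Nat.cast_nonneg n
      linarith
    refine ⟨r, R, h1, h2, h3, ?_⟩
    have := he3 A r R hR
    rw [← this] at h4
    exact h4

theorem exists_dil (hmob : S_MOB) : ∃ e : ℍ ≃ᵐ ℍ, Isometry e ∧
    MeasurePreserving e volume volume ∧ ∀ z, e z = dil2 z := by
  obtain ⟨e, he1, he2, he3⟩ := hmob 2 0 0 1 (by norm_num)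
  refine ⟨e, he1, he2, fun z => ?_⟩
  apply UpperHalfPlane.ext
  rw [he3]
  show _ = 2 * (z : ℂ)
  push_cast
  ring

theorem image_dil {e : ℍ ≃ᵐ ℍ} (he : ∀ z, e z = dil2 z) (A : Set ℍ) : dil2 '' A = e '' A := by
  ext z
  constructor
  · rintro ⟨y, hy, rfl⟩
    exact ⟨y, hy, he y⟩
  · rintro ⟨y, hy, rfl⟩
    exact ⟨y, hy, (he y).symm⟩

theorem norm_dil2 (z : ℍ) : ‖((dil2 z : ℍ) : ℂ)‖ = 2 * ‖(z : ℂ)‖ := by
  show ‖2 * (z : ℂ)‖ = _
  rw [norm_mul]
  simp

theorem bn_dil (hmob : S_MOB) (A : Set ℍ) (r R : ℝ) :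
    bn (voronoiGraph (dil2 '' A)) (fun x => tent 0 (2 * r) x) (fun x => tinf (2 * R) x) =
      bn (voronoiGraph A) (fun x => tent 0 r x) (fun x => tinf R x) := by
  obtain ⟨e, he1, he2, he3⟩ := exists_dil hmob
  rw [image_dil he3]
  have h := bn_image (e := e.toEquiv) he1 A (tent 0 (2 * r)) (tinf (2 * R))
  refine Eq.trans h ?_
  congr 1
  · funext x
    show tent 0 (2 * r) (e x) = _
    rw [he3]
    unfold tent
    rw [Complex.ofReal_zero, sub_zero, sub_zero, norm_dil2, mul_div_mul_left _ _ two_ne_zero]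
  · funext x
    show tinf (2 * R) (e x) = _
    rw [he3]
    unfold tinf
    rw [norm_dil2, mul_div_mul_left _ _ two_ne_zero]

theorem Ev_dil (hmob : S_MOB) (c : ℝ) (A : Set ℍ) : mk A ∈ Ev c ↔ mk (dil2 '' A) ∈ Ev c := by
  constructor
  · intro h n
    obtain ⟨r, R, h1, h2, h3, h4⟩ := h (2 * n + 1)
    refine ⟨2 * r, 2 * R, by positivity, ?_, ?_, ?_⟩
    · push_cast at h2 ⊢
      have e1 : (1 : ℝ) / (n + 1) = 2 * (1 / (2 * n + 1 + 1)) := by
        field_simp
        ring
      rw [e1]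
      linarith
    · push_cast at h3 ⊢
      linarith [(Nat.cast_nonneg n : (0 : ℝ) ≤ n)]
    · push_cast
      rw [show pts (mk (dil2 '' A)) = dil2 '' A from rfl, bn_dil hmob,
        mul_div_mul_left _ _ two_ne_zero]
      exact h4
  · intro h n
    obtain ⟨r, R, h1, h2, h3, h4⟩ := h (2 * n + 1)
    refine ⟨r / 2, R / 2, by positivity, ?_, ?_, ?_⟩
    · push_cast at h2 ⊢
      have e1 : (1 : ℝ) / (n + 1) = 2 * (1 / (2 * n + 1 + 1)) := by
        field_simp
        ring
      have e2 : (0 : ℝ) < 1 / (2 * n + 1 + 1) := by positivity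
      rw [e1]
      linarith
    · push_cast at h3 ⊢
      linarith
    · have h5 := bn_dil hmob A ((r : ℝ) / 2) ((R : ℝ) / 2)
      rw [mul_div_cancel₀ (r : ℝ) two_ne_zero, mul_div_cancel₀ (R : ℝ) two_ne_zero] at h5
      push_cast
      rw [show pts (mk A) = A from rfl, ← h5, div_div_div_cancel_right₀ two_ne_zero]
      exact h4

/-! ## Measurability of the events -/

theorem measurable_tent (s r : ℝ) : Measurable (tent s r) := by
  have h : Continuous (tent s r) := by
    unfold tent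
    fun_prop
  exact h.measurable

theorem measurable_tinf (R : ℝ) : Measurable (tinf R) := by
  have h : Continuous (tinf R) := by
    unfold tinf
    refine continuous_const.max (continuous_const.sub (continuous_const.div (by fun_prop)
      fun z => ?_))
    exact (norm_pos' z).ne'
  exact h.measurable

/-- the measurable version of `Ev` -/
def EvG (c : ℝ) : Set Conf := {A | Good (pts A)} ∩ Ev c

theorem measurableSet_EvG (hmen : S_MEN.{0}) (hmqn : S_MQN.{0}) (c : ℝ) :
    MeasurableSet (EvG c) := by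
  have h1 : ∀ r R : ℚ, MeasurableSet {A : Conf | ((R : ℝ) / r) * bn (voronoiGraph (pts (TG A)))
      (fun x => tent 0 r x) (fun x => tinf R x) < c} := by
    intro r R
    have := measurable_bn hmen hmqn (T := fun A : Conf => A) measurable_id
      (F := fun _ z => tent 0 r z) (H := fun _ z => tinf R z)
      ((measurable_tent _ _).comp measurable_snd) ((measurable_tinf _).comp measurable_snd)
    exact measurableSet_lt (this.const_mul _) measurable_const
  have h2 : EvG c = {A | Good (pts A)} ∩ ⋂ n : ℕ, ⋃ (r : ℚ) (R : ℚ)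
      (_ : 0 < r ∧ (r : ℝ) < 1 / (n + 1) ∧ (n : ℝ) + 1 < R),
      {A : Conf | ((R : ℝ) / r) * bn (voronoiGraph (pts (TG A)))
      (fun x => tent 0 r x) (fun x => tinf R x) < c} := by
    ext A
    constructor
    · rintro ⟨hA, hE⟩
      refine ⟨hA, ?_⟩
      rw [Set.mem_iInter]
      intro n
      obtain ⟨r, R, a1, a2, a3, a4⟩ := hE n
      rw [Set.mem_iUnion]
      refine ⟨r, ?_⟩
      rw [Set.mem_iUnion]
      refine ⟨R, ?_⟩
      rw [Set.mem_iUnion]
      refine ⟨⟨a1, a2, a3⟩, ?_⟩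
      show _ < c
      rw [TG_of_good hA]
      exact a4
    · rintro ⟨hA, hE⟩
      refine ⟨hA, fun n => ?_⟩
      rw [Set.mem_iInter] at hE
      have := hE n
      rw [Set.mem_iUnion] at this
      obtain ⟨r, this⟩ := this
      rw [Set.mem_iUnion] at this
      obtain ⟨R, this⟩ := this
      rw [Set.mem_iUnion] at this
      obtain ⟨⟨a1, a2, a3⟩, a4⟩ := this
      refine ⟨r, R, a1, a2, a3, ?_⟩
      have a5 : ((R : ℝ) / r) * bn (voronoiGraph (pts (TG A)))
        (fun x => tent 0 r x) (fun x => tinf R x) < c := a4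
      rw [TG_of_good hA] at a5
      exact a5
  rw [h2]
  refine (measurableSet_good hmen).inter (MeasurableSet.iInter fun n => MeasurableSet.iUnion
    fun r => MeasurableSet.iUnion fun R => MeasurableSet.iUnion fun _ => h1 r R)

/-! ## The zero-one law -/

theorem zero (hmob : S_MOB) (hmen : S_MEN.{0}) (hmqn : S_MQN.{0}) (hzo : S_ZO.{u})
    (hce : S_CE.{u}) (hsum : S_SUM.{u}) (hlow : S_LOW.{u}) : S_ZERO.{u} := by
  intro Ω _ P _ lam Q hQ hlam c hc
  have hg := hce P lam Q hQ hlam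
  obtain ⟨e, he1, he2, he3⟩ := exists_dil hmob
  have hQ2 := isPoisson_image hQ e he2
  have hg2 := hce P lam _ hQ2 hlam
  have h01 := hzo P lam Q hQ (EvG c) (measurableSet_EvG hmen hmqn c) (by
    filter_upwards [hg, hg2] with ω h1 h2
    rw [image_dil he3]
    constructor
    · rintro ⟨_, h4⟩
      refine ⟨h2, ?_⟩
      rw [← image_dil he3]
      exact (Ev_dil hmob c _).1 h4
    · rintro ⟨_, h4⟩
      refine ⟨h1, ?_⟩
      rw [← image_dil he3] at h4
      exact (Ev_dil hmob c _).2 h4)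
  rcases h01 with h0 | h1
  · exfalso
    have h2 : P {ω | mk (Q ω) ∈ Ev c} = 0 := by
      have h3 : {ω | mk (Q ω) ∈ Ev c} ⊆ {ω | mk (Q ω) ∈ EvG c} ∪ {ω | ¬ Good (Q ω)} := by
        intro ω hω
        by_cases h : Good (Q ω)
        · exact Or.inl ⟨h, hω⟩
        · exact Or.inr h
      refine measure_mono_null h3 (measure_union_null h0 ?_)
      exact hg
    obtain ⟨κ, hκ, h3⟩ := hsum P lam Q hQ hlam c hc h2
    exact hlow P lam Q hQ hlam κ hκ h3
  · have h2 : ∀ᵐ ω ∂P, ω ∈ {ω | mk (Q ω) ∈ EvG c} :=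
      (mem_ae_iff_prob_eq_one ((measurable_mk hQ) (measurableSet_EvG hmen hmqn c))).2 h1
    filter_upwards [h2] with ω hω
    exact hω.2

end

end Pool.Agent.Y979.HM
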